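import Pool.Agent.U89.UF.Filt

/-!
# Unipotent finitary kernels: the chain
-/

set_option autoImplicit false
set_option linter.unusedSectionVars false

namespace Pool.Agent.U89.UF

variable {F V : Type} [Field F] [AddCommGroup V] [Module F V]

/-- one irreducible factor -/
theorem irr_step {P : (Module.End F V)ˣ} {T : Set (Module.End F V)} (hLN : LN P T)
    {B' B : Submodule F V} [FiniteDimensional F B] (hle : B' ≤ B) (hB' : TI P T B')
    (hB : TI P T B) (hmax : ∀ W : Submodule F V, TI P T W → B' ≤ W → W ≤ B → W = B' ∨ W = B)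
    (hF : Filt P T (MB P B')) : Filt P T (MB P B) := by
  let B0 : Submodule F B := B'.comap B.subtype
  -- the induced operators
  let S : Module.End F (B ⧸ B0) → ℤ → Prop := fun a k => ∃ w, HW P T w k ∧
    ∀ b b2 : B, (b2 : V) = w b → a (B0.mkQ b) = B0.mkQ b2
  have hind : ∀ w k, HW P T w k → ∃ a : Module.End F (B ⧸ B0),
      ∀ b b2 : B, (b2 : V) = w b → a (B0.mkQ b) = B0.mkQ b2 := by
    intro w k hw
    have h1 : ∀ x ∈ B, w x ∈ B := hB.hw hw
    refine ⟨B0.mapQ B0 (w.restrict h1) ?_, ?_⟩
    · intro x hx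
      exact hB'.hw hw (x : V) hx
    · intro b b2 hb
      have h2 : w.restrict h1 b = b2 := Subtype.ext hb.symm
      show B0.mkQ (w.restrict h1 b) = B0.mkQ b2
      rw [h2]
  have hS : GrS S := by
    constructor
    · rintro a k b l ⟨w, hw, ha⟩ ⟨w', hw', hb⟩
      refine ⟨w * w', HW.mul _ _ _ _ hw hw', ?_⟩
      intro x x2 hx
      have h1 := hb x ⟨w' x, hB.hw hw' _ x.2⟩ rfl
      show a (b (B0.mkQ x)) = _
      rw [h1]
      exact ha _ x2 hx
    · rintro a ⟨w, hw, ha⟩
      obtain ⟨n, hn⟩ := hw.nilpotent hLN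
      refine ⟨n, ?_⟩
      have h1 : ∀ n : ℕ, ∀ b : B, ∃ b2 : B, (b2 : V) = (w ^ n) b ∧ (a ^ n) (B0.mkQ b) = B0.mkQ b2 := by
        intro n
        induction n with
        | zero => exact fun b => ⟨b, rfl, rfl⟩
        | succ n ih =>
          intro b
          obtain ⟨b2, h2, h3⟩ := ih b
          refine ⟨⟨w b2, hB.hw hw _ b2.2⟩, ?_, ?_⟩
          · rw [pow_succ']
            show w b2 = w ((w ^ n) b)
            rw [h2]
          · rw [pow_succ']
            show a ((a ^ n) (B0.mkQ b)) = _
            rw [h3]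
            exact ha _ _ rfl
      apply LinearMap.ext
      intro z
      obtain ⟨b, rfl⟩ := Submodule.mkQ_surjective B0 z
      obtain ⟨b2, h2, h3⟩ := h1 n b
      rw [h3]
      rw [hn] at h2
      have h4 : b2 = 0 := Subtype.ext h2
      rw [h4, map_zero]
      rfl
    · intro W hW
      have h1 := hmax ((W.comap B0.mkQ).map B.subtype) ?_ ?_ ?_
      · rcases h1 with h1 | h1
        · left
          rw [eq_bot_iff]
          intro z hz
          obtain ⟨b, rfl⟩ := Submodule.mkQ_surjective B0 z
          have h2 : (b : V) ∈ B' := by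
            rw [← h1]
            exact ⟨b, hz, rfl⟩
          rw [Submodule.mem_bot, Submodule.mkQ_apply, Submodule.Quotient.mk_eq_zero]
          exact h2
        · right
          rw [eq_top_iff]
          intro z _
          obtain ⟨b, rfl⟩ := Submodule.mkQ_surjective B0 z
          have h2 : (b : V) ∈ (W.comap B0.mkQ).map B.subtype := by
            rw [h1]
            exact b.2
          obtain ⟨b', hb', h3⟩ := h2
          have h4 : b' = b := Subtype.ext h3
          rw [← h4]
          exact hb'
      · intro t ht k b hb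
        obtain ⟨b1, hb1, rfl⟩ := hb
        have hw : HW P T (t * Pz P k) k := HW.gen t ht k
        obtain ⟨a, ha⟩ := hind _ k hw
        have h2 : (t * Pz P k) (b1 : V) ∈ B := hB.hw hw _ b1.2
        refine ⟨⟨_, h2⟩, ?_, rfl⟩
        show B0.mkQ _ ∈ W
        rw [← ha b1 ⟨_, h2⟩ rfl]
        exact hW a k ⟨_, hw, ha⟩ _ hb1
      · intro x hx
        refine ⟨⟨x, hle hx⟩, ?_, rfl⟩
        show B0.mkQ _ ∈ W
        have h2 : B0.mkQ ⟨x, hle hx⟩ = 0 := by
          rw [Submodule.mkQ_apply, Submodule.Quotient.mk_eq_zero]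
          exact hx
        rw [h2]
        exact W.zero_mem
      · rintro _ ⟨b, _, rfl⟩
        exact b.2
  have kill : ∀ w k, HW P T w k → (∀ a, S a k → a = 0) → ∀ b ∈ B, w b ∈ B' := by
    intro w k hw h b hb
    obtain ⟨a, ha⟩ := hind w k hw
    have h1 := h a ⟨w, hw, ha⟩
    have h2 := ha ⟨b, hb⟩ ⟨w b, hB.hw hw b hb⟩ rfl
    rw [h1] at h2
    have h3 : B0.mkQ ⟨w b, hB.hw hw b hb⟩ = 0 := h2.symm
    rw [Submodule.mkQ_apply, Submodule.Quotient.mk_eq_zero] at h3
    exact h3
  obtain ⟨κ, hκ0, hκ | hκ⟩ := dich hS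
  · refine pos_step hLN hle hB' hB hκ0 ?_ hF
    intro w k hw hk
    refine kill w k hw fun a ha => ?_
    by_contra h0
    have h1 := hκ a k ha h0
    omega
  · have h1 : Filt P⁻¹ T (MB P⁻¹ B) := by
      refine pos_step hLN.symm hle hB'.symm hB.symm hκ0 ?_ (by rw [MB_inv]; exact hF.symm)
      intro w k hw hk
      have hw' : HW P T w (-k) := by
        have h2 := hw.inv
        rwa [inv_inv] at h2
      refine kill w (-k) hw' fun a ha => ?_
      by_contra h0
      have h1 := hκ a (-k) ha h0
      omega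
    rw [MB_inv] at h1
    have h2 := h1.symm
    rwa [inv_inv] at h2

theorem filt_MB {P : (Module.End F V)ˣ} {T : Set (Module.End F V)} (hLN : LN P T) :
    ∀ (n : ℕ) (B : Submodule F V), FiniteDimensional F B → TI P T B → Module.finrank F B ≤ n →
      Filt P T (MB P B) := by
  intro n
  induction n with
  | zero =>
    intro B hBf _ hn
    have h1 : B = ⊥ := Submodule.finrank_eq_zero.1 (Nat.le_zero.1 hn)
    have h2 : MB P B = ⊥ := by
      rw [eq_bot_iff]
      refine MB_le fun i b hb => ?_
      rw [h1] at hb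
      have h3 : b = 0 := hb
      rw [h3, map_zero]
      exact Submodule.zero_mem _
    rw [h2]
    exact Filt.bot
  | succ n ih =>
    intro B hBf hB hn
    by_cases hb : B = ⊥
    · exact ih B hBf hB (by rw [hb]; simp)
    -- a maximal proper invariant subspace
    have hex : ∃ r : ℕ, ∃ B' : Submodule F V, TI P T B' ∧ B' < B ∧
        Module.finrank F B - Module.finrank F B' = r := by
      refine ⟨_, ⊥, ?_, bot_lt_iff_ne_bot.2 hb, rfl⟩
      intro t _ k b hb
      have h3 : b = 0 := hb
      rw [h3, map_zero, map_zero]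
      exact Submodule.zero_mem _
    classical
    obtain ⟨B', hB', hlt, hr⟩ := Nat.find_spec hex
    have hB'f : FiniteDimensional F B' := Submodule.finiteDimensional_of_le hlt.le
    have hmax : ∀ W : Submodule F V, TI P T W → B' ≤ W → W ≤ B → W = B' ∨ W = B := by
      intro W hW h1 h2
      by_contra hcon
      push Not at hcon
      have h3 : B' < W := lt_of_le_of_ne h1 (Ne.symm hcon.1)
      have h4 : W < B := lt_of_le_of_ne h2 hcon.2
      have hWf : FiniteDimensional F W := Submodule.finiteDimensional_of_le h2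
      have h5 := Submodule.finrank_lt_finrank_of_lt h3
      have h6 := Submodule.finrank_lt_finrank_of_lt h4
      have h7 := Nat.find_min' hex ⟨W, hW, h4, rfl⟩
      omega
    refine irr_step hLN hlt.le hB' hB hmax (ih B' hB'f hB' ?_)
    have h5 := Submodule.finrank_lt_finrank_of_lt hlt
    omega

/-- the filtration of the whole space -/
theorem filt_top {P : (Module.End F V)ˣ} {T : Set (Module.End F V)} (hLN : LN P T)
    {U : Submodule F V} (hU : FiniteDimensional F U) (hT : ∀ t ∈ T, ∀ x, t x ∈ U) :
    Filt P T (⊤ : Submodule F V) := by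
  have hTI : TI P T U := fun t ht k b _ => hT t ht _
  refine Filt.step (MB P U) ⊤ (filt_MB hLN _ U hU hTI le_rfl) le_top
    ⟨fun _ _ _ => trivial, fun _ _ _ _ => trivial⟩ ?_
  intro x _ z hz
  obtain ⟨ω, hω, h1⟩ := hz 0
  have h2 : ω x ∈ MB P U := by
    clear h1
    induction hω using Submodule.span_induction with
    | mem w hw =>
      obtain ⟨L, h3, h4, rfl⟩ := hw
      rcases L with _ | ⟨q, L⟩
      · simp at h4
      · rw [wd_cons]
        exact mem_MB P _ (hT _ (h3 q (List.mem_cons_self)) _)
    | zero => exact (MB P U).zero_mem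
    | add a b _ _ ha hb => exact (MB P U).add_mem ha hb
    | smul c a _ ha => exact (MB P U).smul_mem c ha
  have h3 := (MB P U).add_mem h1 h2
  rwa [sub_add_cancel] at h3

/-- the chain as a function -/
theorem Filt.chain {P : (Module.End F V)ˣ} {T : Set (Module.End F V)} {Y : Submodule F V}
    (h : Filt P T Y) : ∃ (n : ℕ) (M : ℕ → Submodule F V), M 0 = ⊥ ∧ (∀ i, n ≤ i → M i = Y) ∧
      (∀ i, Inv P T (M i)) ∧ (∀ i, M i ≤ M (i + 1)) ∧ ∀ i, Sep P T (M i) (M (i + 1)) := by
  induction h with
  | bot =>
    refine ⟨0, fun _ => ⊥, rfl, fun _ _ => rfl, fun _ => ⟨?_, ?_⟩, fun _ => le_rfl, ?_⟩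
    · intro i y hy
      have h3 : y = 0 := hy
      rw [h3, map_zero]
      exact Submodule.zero_mem _
    · intro t _ y hy
      have h3 : y = 0 := hy
      rw [h3, map_zero]
      exact Submodule.zero_mem _
    · intro _ x hx z hz
      have h3 : x = 0 := hx
      obtain ⟨ω, _, h4⟩ := hz 0
      rwa [h3, map_zero, sub_zero] at h4
  | step Y Y' _ h1 h2 h3 ih =>
    obtain ⟨n, M, hM0, hMn, hMi, hMm, hMs⟩ := ih
    refine ⟨n + 1, fun i => if i ≤ n then M i else Y', ?_, ?_, ?_, ?_, ?_⟩
    · show (if 0 ≤ n then M 0 else Y') = ⊥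
      rw [if_pos (Nat.zero_le n), hM0]
    · intro i hi
      show (if i ≤ n then M i else Y') = Y'
      rw [if_neg (by omega)]
    · intro i
      show Inv P T (if i ≤ n then M i else Y')
      split_ifs
      · exact hMi i
      · exact h2
    · intro i
      show (if i ≤ n then M i else Y') ≤ (if i + 1 ≤ n then M (i + 1) else Y')
      by_cases hi : i + 1 ≤ n
      · rw [if_pos hi, if_pos (by omega)]
        exact hMm i
      · rw [if_neg hi]
        by_cases hi' : i ≤ n
        · rw [if_pos hi', hMn i (by omega)]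
          exact h1
        · rw [if_neg hi']
    · intro i
      show Sep P T (if i ≤ n then M i else Y') (if i + 1 ≤ n then M (i + 1) else Y')
      by_cases hi : i + 1 ≤ n
      · rw [if_pos hi, if_pos (by omega)]
        exact hMs i
      · rw [if_neg hi]
        by_cases hi' : i ≤ n
        · rw [if_pos hi', hMn i (by omega)]
          exact h3
        · rw [if_neg hi']
          intro x hx z hz
          obtain ⟨ω, hω, h4⟩ := hz 0
          have h5 := Y'.add_mem h4 (h2.nn hω x hx)
          rwa [sub_add_cancel] at h5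

end Pool.Agent.U89.UF
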