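import Mathlib

/-!
# Unipotent finitary kernels: graded irreducible semigroups whose degree zero part is nilpotent
-/

set_option autoImplicit false
set_option linter.unusedSectionVars false

namespace Pool.Agent.U89.UF

variable {F Z : Type} [Field F] [AddCommGroup Z] [Module F Z] [FiniteDimensional F Z]

/-- a graded semigroup of endomorphisms -/
structure GrS (S : Module.End F Z → ℤ → Prop) : Prop where
  mul : ∀ a k b l, S a k → S b l → S (a * b) (k + l)
  nil : ∀ a, S a 0 → IsNilpotent a
  irr : ∀ W : Submodule F Z, (∀ a k, S a k → ∀ w ∈ W, a w ∈ W) → W = ⊥ ∨ W = ⊤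

theorem GrS.neg {S : Module.End F Z → ℤ → Prop} (h : GrS S) : GrS (fun a k => S a (-k)) where
  mul a k b l ha hb := by
    have h1 := h.mul a (-k) b (-l) ha hb
    have h2 : -(k + l) = -k + -l := by ring
    rw [h2]
    exact h1
  nil a ha := h.nil a (by simpa using ha)
  irr W hW := h.irr W fun a k ha => hW a (-k) (by simpa using ha)

theorem GrS.pow {S : Module.End F Z → ℤ → Prop} (h : GrS S) {a : Module.End F Z} {k : ℤ}
    (ha : S a k) (n : ℕ) : S (a ^ (n + 1)) ((n + 1 : ℕ) * k) := by
  induction n with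
  | zero => simpa using ha
  | succ n ih =>
    have h1 := h.mul _ _ _ _ ih ha
    rw [pow_succ]
    have h2 : (((n + 1 + 1 : ℕ) : ℤ) * k) = ((n + 1 : ℕ) : ℤ) * k + k := by push_cast; ring
    rw [h2]
    exact h1

theorem not_nil {a : Module.End F Z} {W : Submodule F Z} (hW : W ≠ ⊥) (h : W.map a = W) :
    ¬ IsNilpotent a := by
  rintro ⟨n, hn⟩
  have h1 : ∀ n : ℕ, W.map (a ^ n) = W := by
    intro n
    induction n with
    | zero =>
      rw [pow_zero]
      exact Submodule.map_id W
    | succ n ih =>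
      rw [pow_succ]
      have h2 : W.map (a ^ n * a) = (W.map a).map (a ^ n) := Submodule.map_comp a (a ^ n) W
      rw [h2, h, ih]
  have h2 := h1 n
  rw [hn] at h2
  exact hW (h2.symm.trans (Submodule.map_zero W))

theorem map_pow_eq {a : Module.End F Z} {W : Submodule F Z} (h : W.map a = W) (n : ℕ) :
    W.map (a ^ n) = W := by
  induction n with
  | zero =>
    rw [pow_zero]
    exact Submodule.map_id W
  | succ n ih =>
    rw [pow_succ]
    have h2 : W.map (a ^ n * a) = (W.map a).map (a ^ n) := Submodule.map_comp a (a ^ n) W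
    rw [h2, h, ih]

/-- the positive case -/
theorem dich_pos {S : Module.End F Z → ℤ → Prop} (h : GrS S) {f : Module.End F Z} {d : ℤ}
    (hf : S f d) (hd : 0 < d) (hmin : ∀ a k, S a k → a ≠ 0 →
      Module.finrank F (LinearMap.range f) ≤ Module.finrank F (LinearMap.range a))
    (hf0 : f ≠ 0) (hmap : (LinearMap.range f).map f = LinearMap.range f) :
    ∃ κ : ℤ, 0 ≤ κ ∧ ∀ a k, S a k → a ≠ 0 → -κ ≤ k := by
  have hW : LinearMap.range f ≠ ⊥ := fun h1 => hf0 (LinearMap.range_eq_bot.1 h1)
  -- step (i)
  have step1 : ∀ a k, S a k → f * a * f ≠ 0 → 0 < d + k + d := by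
    intro a k ha hne
    have hS : S (f * a * f) (d + k + d) := h.mul _ _ _ _ (h.mul _ _ _ _ hf ha) hf
    have hle : LinearMap.range (f * a * f) ≤ LinearMap.range f := by
      rintro _ ⟨x, rfl⟩
      exact ⟨a (f x), rfl⟩
    have hr : LinearMap.range (f * a * f) = LinearMap.range f :=
      Submodule.eq_of_le_of_finrank_le hle (hmin _ _ hS hne)
    have hm : (LinearMap.range f).map (f * a * f) = LinearMap.range f := by
      have h1 : (LinearMap.range f).map (f * a * f) = ((LinearMap.range f).map f).map (f * a) :=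
        Submodule.map_comp f (f * a) _
      rw [h1, hmap]
      have h2 : LinearMap.range (f * a * f) = (LinearMap.range f).map (f * a) :=
        LinearMap.range_comp f (f * a)
      rw [← h2, hr]
    by_contra hneg
    push Not at hneg
    rcases lt_or_eq_of_le hneg with hlt | heq
    · obtain ⟨D, hD⟩ : ∃ D : ℕ, ((D + 1 : ℕ) : ℤ) = d := ⟨(d - 1).toNat, by omega⟩
      obtain ⟨M, hM⟩ : ∃ M : ℕ, ((M + 1 : ℕ) : ℤ) = -(d + k + d) := ⟨(-(d + k + d) - 1).toNat, by omega⟩
      have h1 := h.mul _ _ _ _ (h.pow hS D) (h.pow hf M)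
      have h2 : ((D + 1 : ℕ) : ℤ) * (d + k + d) + ((M + 1 : ℕ) : ℤ) * d = 0 := by
        rw [hD, hM]; ring
      rw [h2] at h1
      refine not_nil hW ?_ (h.nil _ h1)
      have h3 : (LinearMap.range f).map ((f * a * f) ^ (D + 1) * f ^ (M + 1)) =
          ((LinearMap.range f).map (f ^ (M + 1))).map ((f * a * f) ^ (D + 1)) :=
        Submodule.map_comp _ _ _
      rw [h3, map_pow_eq hmap, map_pow_eq hm]
    · rw [heq] at hS
      exact not_nil hW hm (h.nil _ hS)
  -- right side
  have right : ∃ u : ℕ, ∀ x : Z, x ∈ Submodule.span F {y | ∃ c k, S c k ∧ k ≤ (u : ℤ) ∧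
      ∃ w, y = c (f w)} := by
    let Q : ℕ → Submodule F Z := fun u => Submodule.span F {y | ∃ c k, S c k ∧ k ≤ (u : ℤ) ∧
      ∃ w, y = c (f w)}
    have hQ : Monotone Q := by
      intro u v huv
      refine Submodule.span_mono ?_
      rintro y ⟨c, k, h1, h2, h3⟩
      exact ⟨c, k, h1, h2.trans (by exact_mod_cast huv), h3⟩
    obtain ⟨u, hu⟩ := monotone_stabilizes_iff_noetherian.2 (inferInstance : IsNoetherian F Z) ⟨Q, hQ⟩
    refine ⟨u, ?_⟩
    have hQu : ∀ v, Q v ≤ Q u := by
      intro v
      rcases le_total u v with h1 | h1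
      · exact (hu v h1).ge
      · exact hQ h1
    have h1 : ∀ a k, S a k → ∀ w ∈ Q u, a w ∈ Q u := by
      intro a k ha w hw
      induction hw using Submodule.span_induction with
      | mem y hy =>
        obtain ⟨c, l, hc, hl, w', rfl⟩ := hy
        have h2 : a (c (f w')) ∈ Q (k + l).toNat :=
          Submodule.subset_span ⟨a * c, k + l, h.mul _ _ _ _ ha hc, Int.self_le_toNat _, w', rfl⟩
        exact hQu _ h2
      | zero => rw [map_zero]; exact Submodule.zero_mem _
      | add x y _ _ hx hy => rw [map_add]; exact Submodule.add_mem _ hx hy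
      | smul r x _ hx => rw [map_smul]; exact Submodule.smul_mem _ r hx
    rcases h.irr (Q u) h1 with h2 | h2
    · exfalso
      apply hW
      rw [← hmap, eq_bot_iff, ← h2]
      rintro _ ⟨_, ⟨w, rfl⟩, rfl⟩
      have h3 : f (f w) ∈ Q d.toNat :=
        Submodule.subset_span ⟨f, d, hf, Int.self_le_toNat _, w, rfl⟩
      exact hQu _ h3
    · intro x
      show x ∈ Q u
      rw [h2]
      trivial
  -- left side
  have left : ∃ u : ℕ, ∀ x : Z, (∀ c k, S c k → k ≤ (u : ℤ) → f (c x) = 0) → x = 0 := by
    let Q : ℕ → Submodule F Z := fun u =>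
      { carrier := {x | ∀ c k, S c k → k ≤ (u : ℤ) → f (c x) = 0}
        add_mem' := by
          intro x y hx hy c k h1 h2
          rw [map_add, map_add, hx c k h1 h2, hy c k h1 h2, add_zero]
        zero_mem' := by
          intro c k _ _
          rw [map_zero, map_zero]
        smul_mem' := by
          intro r x hx c k h1 h2
          rw [map_smul, map_smul, hx c k h1 h2, smul_zero] }
    have hQ : Antitone Q := by
      intro u v huv x hx c k h1 h2
      exact hx c k h1 (h2.trans (by exact_mod_cast huv))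
    obtain ⟨u, hu⟩ := IsArtinian.monotone_stabilizes (R := F) (M := Z) ⟨fun n => OrderDual.toDual (Q n), hQ⟩
    refine ⟨u, ?_⟩
    have hQu : ∀ v, Q u ≤ Q v := by
      intro v
      rcases le_total u v with h1 | h1
      · have h2 : Q u = Q v := OrderDual.toDual.injective (hu v h1)
        exact h2.le
      · exact hQ h1
    have h1 : ∀ a k, S a k → ∀ w ∈ Q u, a w ∈ Q u := by
      intro a k ha w hw c l hc hl
      have h2 := hQu (l + k).toNat hw
      exact h2 (c * a) (l + k) (h.mul _ _ _ _ hc ha) (Int.self_le_toNat _)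
    rcases h.irr (Q u) h1 with h2 | h2
    · intro x hx
      have h3 : x ∈ Q u := hx
      rw [h2] at h3
      exact h3
    · exfalso
      apply hW
      rw [← hmap, eq_bot_iff]
      rintro _ ⟨_, ⟨w, rfl⟩, rfl⟩
      have h3 : w ∈ Q u := by rw [h2]; trivial
      have h4 := hQu d.toNat h3
      exact h4 f d hf (Int.self_le_toNat _)
  obtain ⟨u, hu⟩ := right
  obtain ⟨v, hv⟩ := left
  refine ⟨2 * d + u + v, by positivity, ?_⟩
  intro a k ha hne
  obtain ⟨c', k', hc', hk', w, hw⟩ : ∃ c' k', S c' k' ∧ k' ≤ (u : ℤ) ∧ ∃ w, a (c' (f w)) ≠ 0 := by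
    by_contra hcon
    push Not at hcon
    apply hne
    ext x
    have h1 := hu x
    induction h1 using Submodule.span_induction with
    | mem y hy =>
      obtain ⟨c, l, hc, hl, w', rfl⟩ := hy
      exact hcon c l hc hl w'
    | zero => rw [map_zero, map_zero]
    | add x y _ _ hx hy => rw [map_add, map_add, hx, hy]
    | smul r x _ hx => rw [map_smul, map_smul, hx]
  obtain ⟨c, l, hc, hl, hcl⟩ : ∃ c l, S c l ∧ l ≤ (v : ℤ) ∧ f (c (a (c' (f w)))) ≠ 0 := by
    by_contra hcon
    push Not at hcon
    exact hw (hv _ hcon)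
  have h1 := step1 (c * a * c') (l + k + k') (h.mul _ _ _ _ (h.mul _ _ _ _ hc ha) hc') (by
    intro h0
    apply hcl
    have h2 : (f * (c * a * c') * f) w = 0 := by rw [h0]; rfl
    exact h2)
  linarith

/-- the dichotomy -/
theorem dich {S : Module.End F Z → ℤ → Prop} (h : GrS S) :
    ∃ κ : ℤ, 0 ≤ κ ∧ ((∀ a k, S a k → a ≠ 0 → -κ ≤ k) ∨ (∀ a k, S a k → a ≠ 0 → k ≤ κ)) := by
  by_cases hall : ∀ a k, S a k → a = 0
  · exact ⟨0, le_rfl, Or.inl fun a k ha hne => absurd (hall a k ha) hne⟩
  push Not at hall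
  obtain ⟨a0, k0, ha0, hne0⟩ := hall
  have hex : ∃ r : ℕ, ∃ a k, S a k ∧ a ≠ 0 ∧ Module.finrank F (LinearMap.range a) = r :=
    ⟨_, a0, k0, ha0, hne0, rfl⟩
  classical
  obtain ⟨e, p, he, hne, her⟩ := Nat.find_spec hex
  have hmin : ∀ a k, S a k → a ≠ 0 →
      Module.finrank F (LinearMap.range e) ≤ Module.finrank F (LinearMap.range a) := by
    intro a k ha hane
    rw [her]
    exact Nat.find_min' hex ⟨a, k, ha, hane, rfl⟩
  obtain ⟨c, u, hc, hece⟩ : ∃ c u, S c u ∧ e * c * e ≠ 0 := by
    by_contra hcon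
    push Not at hcon
    -- the span of `S (range e)`
    let Q : Submodule F Z := Submodule.span F {y | ∃ c k, S c k ∧ ∃ w, y = c (e w)}
    have h1 : ∀ a k, S a k → ∀ w ∈ Q, a w ∈ Q := by
      intro a k ha w hw
      induction hw using Submodule.span_induction with
      | mem y hy =>
        obtain ⟨c, l, hc, w', rfl⟩ := hy
        exact Submodule.subset_span ⟨a * c, k + l, h.mul _ _ _ _ ha hc, w', rfl⟩
      | zero => rw [map_zero]; exact Submodule.zero_mem _
      | add x y _ _ hx hy => rw [map_add]; exact Submodule.add_mem _ hx hy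
      | smul r x _ hx => rw [map_smul]; exact Submodule.smul_mem _ r hx
    have h2 : ∀ w ∈ Q, e w = 0 := by
      intro w hw
      induction hw using Submodule.span_induction with
      | mem y hy =>
        obtain ⟨c, l, hc, w', rfl⟩ := hy
        have h3 := hcon c l hc
        have h4 : (e * c * e) w' = 0 := by rw [h3]; rfl
        exact h4
      | zero => rw [map_zero]
      | add x y _ _ hx hy => rw [map_add, hx, hy, add_zero]
      | smul r x _ hx => rw [map_smul, hx, smul_zero]
    rcases h.irr Q h1 with h3 | h3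
    · -- all elements kill the range of `e`
      let K : Submodule F Z :=
        { carrier := {x | ∀ c k, S c k → c x = 0}
          add_mem' := by
            intro x y hx hy c k h1
            rw [map_add, hx c k h1, hy c k h1, add_zero]
          zero_mem' := by
            intro c k _
            rw [map_zero]
          smul_mem' := by
            intro r x hx c k h1
            rw [map_smul, hx c k h1, smul_zero] }
      have h4 : ∀ a k, S a k → ∀ w ∈ K, a w ∈ K := by
        intro a k ha w hw c l hc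
        rw [hw a k ha, map_zero]
      have h5 : ∀ w, e w ∈ K := by
        intro w c k hc
        have h6 : c (e w) ∈ Q := Submodule.subset_span ⟨c, k, hc, w, rfl⟩
        rw [h3] at h6
        exact h6
      rcases h.irr K h4 with h6 | h6
      · apply hne
        ext w
        have h7 := h5 w
        rw [h6] at h7
        exact h7
      · apply hne
        ext w
        have h7 : w ∈ K := by rw [h6]; trivial
        exact h7 e p he
    · apply hne
      ext w
      exact h2 w (by rw [h3]; trivial)
  obtain ⟨f, hf⟩ : ∃ f, f = e * c := ⟨_, rfl⟩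
  have hfS : S f (p + u) := by rw [hf]; exact h.mul _ _ _ _ he hc
  have hf0 : f ≠ 0 := by
    intro h0
    apply hece
    rw [← hf, h0, zero_mul]
  have hfr : LinearMap.range f = LinearMap.range e := by
    refine Submodule.eq_of_le_of_finrank_le ?_ (hmin _ _ hfS hf0)
    rintro _ ⟨x, rfl⟩
    rw [hf]
    exact ⟨c x, rfl⟩
  have hmap : (LinearMap.range f).map f = LinearMap.range f := by
    have h1 : (LinearMap.range f).map f = LinearMap.range (e * c * e) := by
      have h2 : LinearMap.range (e * c * e) = (LinearMap.range e).map (e * c) :=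
        LinearMap.range_comp e (e * c)
      rw [h2, ← hf, hfr]
    rw [h1, hfr]
    refine Submodule.eq_of_le_of_finrank_le ?_ (hmin _ _ (h.mul _ _ _ _ (h.mul _ _ _ _ he hc) he) hece)
    rintro _ ⟨x, rfl⟩
    exact ⟨c (e x), rfl⟩
  have hmin' : ∀ a k, S a k → a ≠ 0 →
      Module.finrank F (LinearMap.range f) ≤ Module.finrank F (LinearMap.range a) := by
    rw [hfr]
    exact hmin
  have hW : LinearMap.range f ≠ ⊥ := fun h1 => hf0 (LinearMap.range_eq_bot.1 h1)
  rcases lt_trichotomy (p + u) 0 with hlt | heq | hgt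
  · obtain ⟨κ, hκ0, hκ⟩ := dich_pos (S := fun a k => S a (-k)) h.neg (f := f) (d := -(p + u))
      (by simpa using hfS) (by omega) (fun a k ha => hmin' a (-k) ha) hf0 hmap
    refine ⟨κ, hκ0, Or.inr fun a k ha hane => ?_⟩
    have h1 := hκ a (-k) (by simpa using ha) hane
    omega
  · rw [heq] at hfS
    exact absurd (h.nil f hfS) (not_nil hW hmap)
  · obtain ⟨κ, hκ0, hκ⟩ := dich_pos h hfS hgt hmin' hf0 hmap
    exact ⟨κ, hκ0, Or.inl hκ⟩

end Pool.Agent.U89.UF
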