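import Pool.Agent.U89.UF.Dich

/-!
# Unipotent finitary kernels: the filtration
-/

set_option autoImplicit false
set_option linter.unusedSectionVars false

namespace Pool.Agent.U89.UF

variable {F V : Type} [Field F] [AddCommGroup V] [Module F V]

/-- integral powers as endomorphisms -/
def Pz (P : (Module.End F V)ˣ) (i : ℤ) : Module.End F V := ((P ^ i : (Module.End F V)ˣ) : Module.End F V)

theorem Pz_add (P : (Module.End F V)ˣ) (i j : ℤ) : Pz P (i + j) = Pz P i * Pz P j := by
  unfold Pz
  rw [zpow_add, Units.val_mul]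

theorem Pz_zero (P : (Module.End F V)ˣ) : Pz P 0 = 1 := by
  unfold Pz
  rw [zpow_zero, Units.val_one]

theorem Pz_inv (P : (Module.End F V)ˣ) (i : ℤ) : Pz P⁻¹ i = Pz P (-i) := by
  unfold Pz
  rw [inv_zpow, zpow_neg]

theorem Pz_mul_neg (P : (Module.End F V)ˣ) (i : ℤ) : Pz P i * Pz P (-i) = 1 := by
  rw [← Pz_add, add_neg_cancel, Pz_zero]

theorem Pz_neg_mul (P : (Module.End F V)ˣ) (i : ℤ) : Pz P (-i) * Pz P i = 1 := by
  rw [← Pz_add, neg_add_cancel, Pz_zero]

theorem Pz_apply_add (P : (Module.End F V)ˣ) (i j : ℤ) (x : V) :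
    Pz P i (Pz P j x) = Pz P (i + j) x := by
  rw [Pz_add]
  rfl

/-- homogeneous elements -/
inductive HW (P : (Module.End F V)ˣ) (T : Set (Module.End F V)) : Module.End F V → ℤ → Prop
  | gen (t : Module.End F V) (ht : t ∈ T) (k : ℤ) : HW P T (t * Pz P k) k
  | mul (a : Module.End F V) (k : ℤ) (b : Module.End F V) (l : ℤ) :
      HW P T a k → HW P T b l → HW P T (a * b) (k + l)

theorem HW.inv {P : (Module.End F V)ˣ} {T : Set (Module.End F V)} {a : Module.End F V} {k : ℤ}
    (h : HW P T a k) : HW P⁻¹ T a (-k) := by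
  induction h with
  | gen t ht k =>
    have h1 := HW.gen (P := P⁻¹) t ht (-k)
    rwa [Pz_inv, neg_neg] at h1
  | mul a k b l _ _ ha hb =>
    have h1 := HW.mul _ _ _ _ ha hb
    have h2 : -(k + l) = -k + -l := by ring
    rw [h2]
    exact h1

/-- words in the conjugates of the elements of `T` -/
def wd (P : (Module.End F V)ˣ) (L : List (ℤ × Module.End F V)) : Module.End F V :=
  (L.map fun q => Pz P q.1 * q.2 * Pz P (-q.1)).prod

def Ok (T : Set (Module.End F V)) (L : List (ℤ × Module.End F V)) : Prop := ∀ q ∈ L, q.2 ∈ T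

theorem wd_nil (P : (Module.End F V)ˣ) : wd P [] = 1 := rfl

theorem wd_cons (P : (Module.End F V)ˣ) (q : ℤ × Module.End F V) (L : List (ℤ × Module.End F V)) :
    wd P (q :: L) = Pz P q.1 * q.2 * Pz P (-q.1) * wd P L := by
  unfold wd
  rw [List.map_cons, List.prod_cons]

theorem wd_append (P : (Module.End F V)ˣ) (L L' : List (ℤ × Module.End F V)) :
    wd P (L ++ L') = wd P L * wd P L' := by
  unfold wd
  rw [List.map_append, List.prod_append]

theorem Ok.append {T : Set (Module.End F V)} {L L' : List (ℤ × Module.End F V)} (h : Ok T L)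
    (h' : Ok T L') : Ok T (L ++ L') := by
  intro q hq
  rcases List.mem_append.1 hq with hq | hq
  · exact h q hq
  · exact h' q hq

theorem star {P : (Module.End F V)ˣ} {T : Set (Module.End F V)} :
    ∀ (L : List (ℤ × Module.End F V)) (q : ℤ × Module.End F V) (j : ℤ), Ok T (q :: L) →
      ∃ w, HW P T w (j - q.1) ∧ wd P (q :: L) * Pz P j = Pz P q.1 * w := by
  intro L
  induction L with
  | nil =>
    intro q j h
    refine ⟨q.2 * Pz P (j - q.1), HW.gen _ (h q (List.mem_cons_self)) _, ?_⟩
    rw [wd_cons, wd_nil, mul_one]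
    have h1 : j - q.1 = -q.1 + j := by ring
    rw [h1, Pz_add]
    noncomm_ring
  | cons q' L ih =>
    intro q j h
    obtain ⟨w, hw, he⟩ := ih q' j (fun z hz => h z (List.mem_cons_of_mem _ hz))
    refine ⟨q.2 * Pz P (q'.1 - q.1) * w, ?_, ?_⟩
    · have h1 := HW.mul _ _ _ _ (HW.gen (P := P) q.2 (h q (List.mem_cons_self)) (q'.1 - q.1)) hw
      have h2 : (q'.1 - q.1) + (j - q'.1) = j - q.1 := by ring
      rwa [h2] at h1
    · rw [wd_cons, mul_assoc, he]
      have h1 : q'.1 - q.1 = -q.1 + q'.1 := by ring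
      rw [h1, Pz_add]
      noncomm_ring

/-- homogeneous elements are words -/
theorem HW.word {P : (Module.End F V)ˣ} {T : Set (Module.End F V)} {a : Module.End F V} {k : ℤ}
    (h : HW P T a k) : ∃ L, Ok T L ∧ L ≠ [] ∧ a = wd P L * Pz P k := by
  induction h with
  | gen t ht k =>
    refine ⟨[(0, t)], ?_, by simp, ?_⟩
    · intro q hq
      rw [List.mem_singleton] at hq
      rw [hq]
      exact ht
    · rw [wd_cons, wd_nil, mul_one]
      show t * Pz P k = Pz P 0 * t * Pz P (-0) * Pz P k
      rw [neg_zero, Pz_zero, one_mul, mul_one]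
  | mul a k b l _ _ ha hb =>
    obtain ⟨L, hL, hL0, h1⟩ := ha
    obtain ⟨L', hL', hL0', h2⟩ := hb
    refine ⟨L ++ L'.map (fun q => (k + q.1, q.2)), hL.append ?_, by simp [hL0], ?_⟩
    · intro q hq
      obtain ⟨q', hq', rfl⟩ := List.mem_map.1 hq
      exact hL' q' hq'
    · have h3 : ∀ L' : List (ℤ × Module.End F V),
          wd P (L'.map (fun q => (k + q.1, q.2))) * Pz P k = Pz P k * wd P L' := by
        intro L'
        induction L' with
        | nil => rw [List.map_nil, wd_nil, one_mul, mul_one]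
        | cons q L' ih =>
          rw [List.map_cons, wd_cons, mul_assoc, ih, wd_cons]
          have h4 : Pz P (-(k + q.1)) * Pz P k = Pz P (-q.1) := by
            rw [← Pz_add]; congr 1; ring
          show Pz P (k + q.1) * q.2 * Pz P (-(k + q.1)) * (Pz P k * wd P L') = _
          rw [← mul_assoc, mul_assoc (Pz P (k + q.1) * q.2), h4, Pz_add]
          noncomm_ring
      rw [wd_append, Pz_add, h1, h2]
      have h5 := h3 L'
      calc wd P L * Pz P k * (wd P L' * Pz P l) = wd P L * (Pz P k * wd P L') * Pz P l := by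
            noncomm_ring
        _ = wd P L * wd P (L'.map (fun q => (k + q.1, q.2))) * (Pz P k * Pz P l) := by
            rw [← h5]; noncomm_ring

/-- local nilpotence -/
def LN (P : (Module.End F V)ˣ) (T : Set (Module.End F V)) : Prop :=
  ∀ r : ℕ, ∃ m : ℕ, ∀ L : List (ℤ × Module.End F V), Ok T L → (∀ q ∈ L, |q.1| ≤ (r : ℤ)) →
    m ≤ L.length → wd P L = 0

theorem exists_bound (L : List (ℤ × Module.End F V)) : ∃ r : ℕ, ∀ q ∈ L, |q.1| ≤ (r : ℤ) := by
  induction L with
  | nil => exact ⟨0, by simp⟩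
  | cons q L ih =>
    obtain ⟨r, hr⟩ := ih
    refine ⟨max r q.1.natAbs, fun z hz => ?_⟩
    rcases List.mem_cons.1 hz with rfl | hz
    · rw [Int.abs_eq_natAbs]
      exact_mod_cast le_max_right _ _
    · exact (hr z hz).trans (by exact_mod_cast le_max_left _ _)

theorem HW.nilpotent {P : (Module.End F V)ˣ} {T : Set (Module.End F V)} (hLN : LN P T)
    {a : Module.End F V} (h : HW P T a 0) : IsNilpotent a := by
  obtain ⟨L, hL, hL0, h1⟩ := h.word
  rw [Pz_zero, mul_one] at h1
  obtain ⟨r, hr⟩ := exists_bound L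
  obtain ⟨m, hm⟩ := hLN r
  refine ⟨m, ?_⟩
  have h2 : ∀ n : ℕ, ∃ L' : List (ℤ × Module.End F V), Ok T L' ∧ (∀ q ∈ L', |q.1| ≤ (r : ℤ)) ∧
      n ≤ L'.length ∧ a ^ n = wd P L' := by
    intro n
    induction n with
    | zero => exact ⟨[], by intro q hq; simp at hq, by simp, by simp, by rw [pow_zero, wd_nil]⟩
    | succ n ih =>
      obtain ⟨L', h3, h4, h5, h6⟩ := ih
      refine ⟨L' ++ L, h3.append hL, ?_, ?_, ?_⟩
      · intro q hq
        rcases List.mem_append.1 hq with hq | hq
        · exact h4 q hq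
        · exact hr q hq
      · rw [List.length_append]
        have h7 := List.length_pos_iff.2 hL0
        omega
      · rw [pow_succ, wd_append, h6, h1]
  obtain ⟨L', h3, h4, h5, h6⟩ := h2 m
  rw [h6]
  exact hm L' h3 h4 h5

/-- the span of the words of length more than `m` -/
def nn (P : (Module.End F V)ˣ) (T : Set (Module.End F V)) (m : ℕ) : Submodule F (Module.End F V) :=
  Submodule.span F {w | ∃ L, Ok T L ∧ m < L.length ∧ w = wd P L}

theorem nn_anti (P : (Module.End F V)ˣ) (T : Set (Module.End F V)) : Antitone (nn P T) := by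
  intro m n hmn
  refine Submodule.span_mono ?_
  rintro w ⟨L, h1, h2, h3⟩
  exact ⟨L, h1, lt_of_le_of_lt hmn h2, h3⟩

structure Inv (P : (Module.End F V)ˣ) (T : Set (Module.End F V)) (Y : Submodule F V) : Prop where
  pz : ∀ i : ℤ, ∀ y ∈ Y, Pz P i y ∈ Y
  t : ∀ t ∈ T, ∀ y ∈ Y, t y ∈ Y

theorem Inv.word {P : (Module.End F V)ˣ} {T : Set (Module.End F V)} {Y : Submodule F V}
    (h : Inv P T Y) : ∀ L : List (ℤ × Module.End F V), Ok T L → ∀ y ∈ Y, wd P L y ∈ Y := by
  intro L
  induction L with
  | nil => intro _ y hy; exact hy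
  | cons q L ih =>
    intro hL y hy
    rw [wd_cons]
    have h1 := ih (fun z hz => hL z (List.mem_cons_of_mem _ hz)) y hy
    exact h.pz _ _ (h.t _ (hL q (List.mem_cons_self)) _ (h.pz _ _ h1))

theorem Inv.nn {P : (Module.End F V)ˣ} {T : Set (Module.End F V)} {Y : Submodule F V}
    (h : Inv P T Y) {m : ℕ} {ω : Module.End F V} (hω : ω ∈ nn P T m) : ∀ y ∈ Y, ω y ∈ Y := by
  intro y hy
  induction hω using Submodule.span_induction with
  | mem w hw =>
    obtain ⟨L, h1, _, rfl⟩ := hw
    exact h.word L h1 y hy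
  | zero => exact Y.zero_mem
  | add a b _ _ ha hb => exact Y.add_mem ha hb
  | smul c a _ ha => exact Y.smul_mem c ha

/-- separation -/
def Sep (P : (Module.End F V)ˣ) (T : Set (Module.End F V)) (Y Y' : Submodule F V) : Prop :=
  ∀ x ∈ Y', ∀ z, (∀ m, ∃ ω ∈ nn P T m, z - ω x ∈ Y) → z ∈ Y

inductive Filt (P : (Module.End F V)ˣ) (T : Set (Module.End F V)) : Submodule F V → Prop
  | bot : Filt P T ⊥
  | step (Y Y' : Submodule F V) : Filt P T Y → Y ≤ Y' → Inv P T Y' → Sep P T Y Y' → Filt P T Y'

/-! ### symmetry -/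

theorem wd_inv (P : (Module.End F V)ˣ) (L : List (ℤ × Module.End F V)) :
    wd P⁻¹ L = wd P (L.map fun q => (-q.1, q.2)) := by
  induction L with
  | nil => rfl
  | cons q L ih =>
    rw [List.map_cons, wd_cons, wd_cons, ih, Pz_inv, Pz_inv]

theorem nn_inv_le (P : (Module.End F V)ˣ) (T : Set (Module.End F V)) (m : ℕ) :
    nn P⁻¹ T m ≤ nn P T m := by
  refine Submodule.span_mono ?_
  rintro w ⟨L, h1, h2, h3⟩
  refine ⟨L.map fun q => (-q.1, q.2), ?_, by rwa [List.length_map], by rw [h3, wd_inv]⟩
  intro q hq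
  obtain ⟨q', hq', rfl⟩ := List.mem_map.1 hq
  exact h1 q' hq'

theorem nn_inv (P : (Module.End F V)ˣ) (T : Set (Module.End F V)) (m : ℕ) :
    nn P⁻¹ T m = nn P T m := by
  apply le_antisymm (nn_inv_le P T m)
  have h1 := nn_inv_le P⁻¹ T m
  rwa [inv_inv] at h1

theorem Inv.symm {P : (Module.End F V)ˣ} {T : Set (Module.End F V)} {Y : Submodule F V}
    (h : Inv P T Y) : Inv P⁻¹ T Y :=
  ⟨fun i y hy => by rw [Pz_inv]; exact h.pz _ y hy, h.t⟩

theorem Filt.symm {P : (Module.End F V)ˣ} {T : Set (Module.End F V)} {Y : Submodule F V}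
    (h : Filt P T Y) : Filt P⁻¹ T Y := by
  induction h with
  | bot => exact Filt.bot
  | step Y Y' _ h1 h2 h3 ih =>
    refine Filt.step Y Y' ih h1 h2.symm ?_
    intro x hx z hz
    refine h3 x hx z fun m => ?_
    have h4 := hz m
    rwa [nn_inv] at h4

theorem LN.symm {P : (Module.End F V)ˣ} {T : Set (Module.End F V)} (h : LN P T) : LN P⁻¹ T := by
  intro r
  obtain ⟨m, hm⟩ := h r
  refine ⟨m, fun L h1 h2 h3 => ?_⟩
  rw [wd_inv]
  refine hm _ ?_ ?_ (by rwa [List.length_map])
  · intro q hq
    obtain ⟨q', hq', rfl⟩ := List.mem_map.1 hq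
    exact h1 q' hq'
  · intro q hq
    obtain ⟨q', hq', rfl⟩ := List.mem_map.1 hq
    show |(-q'.1)| ≤ (r : ℤ)
    rw [abs_neg]
    exact h2 q' hq'

/-! ### the module generated by a subspace -/

/-- the span of the translates of `B` -/
def MB (P : (Module.End F V)ˣ) (B : Submodule F V) : Submodule F V := ⨆ i : ℤ, B.map (Pz P i)

theorem mem_MB (P : (Module.End F V)ˣ) {B : Submodule F V} (i : ℤ) {b : V} (hb : b ∈ B) :
    Pz P i b ∈ MB P B :=
  Submodule.mem_iSup_of_mem i ⟨b, hb, rfl⟩

theorem MB_le {P : (Module.End F V)ˣ} {B Y : Submodule F V} (h : ∀ i, ∀ b ∈ B, Pz P i b ∈ Y) :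
    MB P B ≤ Y := by
  refine iSup_le fun i => ?_
  rintro _ ⟨b, hb, rfl⟩
  exact h i b hb

theorem MB_inv (P : (Module.End F V)ˣ) (B : Submodule F V) : MB P⁻¹ B = MB P B := by
  apply le_antisymm
  · refine MB_le fun i b hb => ?_
    rw [Pz_inv]
    exact mem_MB P _ hb
  · refine MB_le fun i b hb => ?_
    have h1 := mem_MB P⁻¹ (-i) hb
    rwa [Pz_inv, neg_neg] at h1

/-- invariance of `B` under the homogeneous elements -/
def TI (P : (Module.End F V)ˣ) (T : Set (Module.End F V)) (B : Submodule F V) : Prop :=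
  ∀ t ∈ T, ∀ k : ℤ, ∀ b ∈ B, t (Pz P k b) ∈ B

theorem TI.hw {P : (Module.End F V)ˣ} {T : Set (Module.End F V)} {B : Submodule F V}
    (h : TI P T B) {a : Module.End F V} {k : ℤ} (ha : HW P T a k) : ∀ b ∈ B, a b ∈ B := by
  induction ha with
  | gen t ht k => exact fun b hb => h t ht k b hb
  | mul a k b l _ _ h1 h2 => exact fun x hx => h1 _ (h2 x hx)

theorem TI.inv {P : (Module.End F V)ˣ} {T : Set (Module.End F V)} {B : Submodule F V}
    (h : TI P T B) : Inv P T (MB P B) := by
  constructor
  · intro i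
    have h1 : MB P B ≤ (MB P B).comap (Pz P i) := MB_le fun j b hb => by
      rw [Submodule.mem_comap, Pz_apply_add]
      exact mem_MB P _ hb
    exact fun y hy => h1 hy
  · intro t ht
    have h1 : MB P B ≤ (MB P B).comap t := MB_le fun j b hb => by
      rw [Submodule.mem_comap]
      have h2 := mem_MB P 0 (h t ht j b hb)
      rwa [Pz_zero] at h2
    exact fun y hy => h1 hy

theorem TI.symm {P : (Module.End F V)ˣ} {T : Set (Module.End F V)} {B : Submodule F V}
    (h : TI P T B) : TI P⁻¹ T B := by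
  intro t ht k b hb
  rw [Pz_inv]
  exact h t ht _ b hb

/-- the part of degree at most `n` -/
def XX (P : (Module.End F V)ˣ) (B' B : Submodule F V) (n : ℤ) : Submodule F V :=
  MB P B' ⊔ ⨆ i : {i : ℤ // i ≤ n}, B.map (Pz P i.1)

theorem XX_le {P : (Module.End F V)ˣ} {B' B Y : Submodule F V} {n : ℤ} (h : MB P B' ≤ Y)
    (h' : ∀ i ≤ n, ∀ b ∈ B, Pz P i b ∈ Y) : XX P B' B n ≤ Y := by
  refine sup_le h (iSup_le fun i => ?_)
  rintro _ ⟨b, hb, rfl⟩
  exact h' i.1 i.2 b hb

theorem mem_XX {P : (Module.End F V)ˣ} {B' B : Submodule F V} {n i : ℤ} (hi : i ≤ n) {b : V}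
    (hb : b ∈ B) : Pz P i b ∈ XX P B' B n :=
  Submodule.mem_sup_right (Submodule.mem_iSup_of_mem (⟨i, hi⟩ : {i : ℤ // i ≤ n}) ⟨b, hb, rfl⟩)

theorem MB_le_XX (P : (Module.End F V)ˣ) (B' B : Submodule F V) (n : ℤ) :
    MB P B' ≤ XX P B' B n := le_sup_left

/-- one factor of positive type -/
theorem pos_step {P : (Module.End F V)ˣ} {T : Set (Module.End F V)} (hLN : LN P T)
    {B' B : Submodule F V} (hle : B' ≤ B) (hB' : TI P T B') (hB : TI P T B) {κ : ℤ} (hκ : 0 ≤ κ)
    (hpos : ∀ a k, HW P T a k → k < -κ → ∀ b ∈ B, a b ∈ B') (hF : Filt P T (MB P B')) :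
    Filt P T (MB P B) := by
  have iB' := hB'.inv
  have iB := hB.inv
  -- the intersection
  obtain ⟨M, hM⟩ : ∃ M : Submodule F V, M = ⨅ n : ℤ, XX P B' B n := ⟨_, rfl⟩
  have hMX : ∀ n, M ≤ XX P B' B n := fun n => by rw [hM]; exact iInf_le _ n
  have hXM : ∀ x, (∀ n, x ∈ XX P B' B n) → x ∈ M := fun x hx => by
    rw [hM, Submodule.mem_iInf]; exact hx
  have hMB' : MB P B' ≤ M := fun x hx => hXM x fun n => MB_le_XX P B' B n hx
  have hMBB : MB P B' ≤ MB P B := MB_le fun i b hb => mem_MB P i (hle hb)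
  have hXB : ∀ n, XX P B' B n ≤ MB P B := fun n => XX_le hMBB fun i _ b hb => mem_MB P i hb
  -- generators kill `M` modulo `MB P B'`
  have kill : ∀ t ∈ T, ∀ i : ℤ, ∀ x ∈ M, Pz P i (t (Pz P (-i) x)) ∈ MB P B' := by
    intro t ht i x hx
    have h1 : XX P B' B (i - κ - 1) ≤ (MB P B').comap (Pz P i * t * Pz P (-i)) := by
      refine XX_le ?_ ?_
      · intro y hy
        exact iB'.pz _ _ (iB'.t t ht _ (iB'.pz _ _ hy))
      · intro j hj b hb
        rw [Submodule.mem_comap]
        show Pz P i (t (Pz P (-i) (Pz P j b))) ∈ MB P B'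
        rw [Pz_apply_add]
        exact mem_MB P i (hpos _ _ (HW.gen t ht (-i + j)) (by omega) b hb)
    exact h1 (hMX _ hx)
  have iM : Inv P T M := by
    constructor
    · intro i x hx
      refine hXM _ fun n => ?_
      have h1 : XX P B' B (n - i) ≤ (XX P B' B n).comap (Pz P i) := by
        refine XX_le ?_ ?_
        · intro y hy
          exact MB_le_XX P B' B n (iB'.pz i y hy)
        · intro j hj b hb
          rw [Submodule.mem_comap, Pz_apply_add]
          exact mem_XX (by omega) hb
      exact h1 (hMX _ hx)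
    · intro t ht x hx
      have h1 := kill t ht 0 x hx
      rw [neg_zero, Pz_zero] at h1
      exact hMB' h1
  have sep1 : Sep P T (MB P B') M := by
    intro x hx z hz
    obtain ⟨ω, hω, h1⟩ := hz 0
    have h2 : ω x ∈ MB P B' := by
      clear h1
      induction hω using Submodule.span_induction with
      | mem w hw =>
        obtain ⟨L, h3, h4, rfl⟩ := hw
        rcases List.eq_nil_or_concat L with h5 | ⟨L', q, h5⟩
        · rw [h5] at h4
          simp at h4
        · rw [h5, List.concat_eq_append] at h3 ⊢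
          rw [wd_append]
          refine iB'.word L' (fun z hz => h3 z (List.mem_append_left _ hz)) _ ?_
          rw [wd_cons, wd_nil, mul_one]
          exact kill q.2 (h3 q (by simp)) q.1 x hx
      | zero => exact (MB P B').zero_mem
      | add a b _ _ ha hb => exact (MB P B').add_mem ha hb
      | smul c a _ ha => exact (MB P B').smul_mem c ha
    have h3 := (MB P B').add_mem h1 h2
    rwa [sub_add_cancel] at h3
  have sep2 : Sep P T M (MB P B) := by
    intro x hx z hz
    refine hXM z fun n => ?_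
    -- long words move `x` down
    have key : ∃ m, ∀ ω ∈ nn P T m, ω x ∈ XX P B' B n := by
      -- for one translate
      have key1 : ∀ j : ℤ, ∃ m : ℕ, ∀ b ∈ B, ∀ L, Ok T L → m < L.length →
          wd P L (Pz P j b) ∈ XX P B' B n := by
        intro j
        obtain ⟨m, hm⟩ := hLN (|j| + κ + |n| + κ).toNat
        refine ⟨m, fun b hb L hL hlen => ?_⟩
        by_contra hne
        have hne' : wd P L (Pz P j b) ∉ MB P B' := fun h1 => hne (MB_le_XX P B' B n h1)
        -- suffixes
        have hsuf : ∀ L1 L2 : List (ℤ × Module.End F V), ∀ q, L = L1 ++ q :: L2 → q.1 ≤ j + κ := by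
          intro L1 L2 q hL'
          by_contra hgt
          push Not at hgt
          rw [hL'] at hL
          have hok : Ok T (q :: L2) := fun z hz => hL z (List.mem_append_right _ hz)
          obtain ⟨w, hw, he⟩ := star (P := P) L2 q j hok
          apply hne'
          rw [hL', wd_append]
          refine iB'.word L1 (fun z hz => hL z (List.mem_append_left _ hz)) _ ?_
          have h1 : (wd P (q :: L2) * Pz P j) b = Pz P q.1 (w b) := by rw [he]; rfl
          have h2 : wd P (q :: L2) (Pz P j b) = Pz P q.1 (w b) := h1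
          rw [h2]
          exact mem_MB P _ (hpos _ _ hw (by omega) b hb)
        -- prefixes
        obtain ⟨q1, L0, hq1⟩ : ∃ q1 L0, L = q1 :: L0 := by
          cases L with
          | nil => simp at hlen
          | cons q1 L0 => exact ⟨q1, L0, rfl⟩
        have hfirst : n < q1.1 := by
          by_contra hle'
          push Not at hle'
          apply hne
          rw [hq1] at hL ⊢
          obtain ⟨w, hw, he⟩ := star (P := P) L0 q1 j hL
          have h1 : (wd P (q1 :: L0) * Pz P j) b = Pz P q1.1 (w b) := by rw [he]; rfl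
          have h2 : wd P (q1 :: L0) (Pz P j b) = Pz P q1.1 (w b) := h1
          rw [h2]
          exact mem_XX hle' (hB.hw hw b hb)
        have hpre : ∀ L1 L2 : List (ℤ × Module.End F V), ∀ q, L = L1 ++ q :: L2 →
            q1.1 - κ ≤ q.1 := by
          intro L1 L2 q hL'
          rcases L1 with _ | ⟨q', L1⟩
          · have h1 : q1 = q := by
              have h2 : q1 :: L0 = q :: L2 := hq1.symm.trans hL'
              exact (List.cons.inj h2).1
            rw [h1]
            omega
          · have h1 : q1 = q' := by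
              have h2 : q1 :: L0 = q' :: (L1 ++ q :: L2) := hq1.symm.trans hL'
              exact (List.cons.inj h2).1
            subst h1
            by_contra hlt
            push Not at hlt
            rw [hL'] at hL
            have hok2 : Ok T (q :: L2) := fun z hz => hL z (List.mem_append_right _ hz)
            have hok1 : Ok T (q1 :: L1) := fun z hz => hL z (List.mem_append_left _ hz)
            obtain ⟨w, hw, he⟩ := star (P := P) L2 q j hok2
            obtain ⟨w', hw', he'⟩ := star (P := P) L1 q1 q.1 hok1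
            apply hne'
            rw [hL', wd_append]
            have h3 : (wd P (q :: L2) * Pz P j) b = Pz P q.1 (w b) := by rw [he]; rfl
            have h4 : wd P (q :: L2) (Pz P j b) = Pz P q.1 (w b) := h3
            have h5 : (wd P (q1 :: L1) * Pz P q.1) (w b) = Pz P q1.1 (w' (w b)) := by rw [he']; rfl
            have h6 : wd P (q1 :: L1) (Pz P q.1 (w b)) = Pz P q1.1 (w' (w b)) := h5
            show wd P (q1 :: L1) (wd P (q :: L2) (Pz P j b)) ∈ MB P B'
            rw [h4, h6]
            exact mem_MB P _ (hpos _ _ hw' (by omega) _ (hB.hw hw b hb))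
        have h0 : wd P L = 0 := by
          refine hm L hL ?_ hlen.le
          intro q hq
          obtain ⟨L1, L2, h1⟩ := List.append_of_mem hq
          have h2 := hsuf L1 L2 q h1
          have h3 := hpre L1 L2 q h1
          have h4 : ((|j| + κ + |n| + κ).toNat : ℤ) = |j| + κ + |n| + κ :=
            Int.toNat_of_nonneg (by positivity)
          rw [h4, abs_le]
          have h5 := neg_abs_le n
          have h6 := le_abs_self j
          have h7 := abs_nonneg j
          have h8 := abs_nonneg n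
          constructor <;> omega
        apply hne
        rw [h0]
        exact Submodule.zero_mem _
      -- general `x`
      have h9 : ∀ x ∈ MB P B, ∃ m : ℕ, ∀ L, Ok T L → m < L.length → wd P L x ∈ XX P B' B n := by
        intro x hx
        refine Submodule.iSup_induction (fun i : ℤ => B.map (Pz P i))
          (motive := fun x => ∃ m : ℕ, ∀ L, Ok T L → m < L.length → wd P L x ∈ XX P B' B n) hx ?_ ?_ ?_
        · rintro j _ ⟨b, hb, rfl⟩
          obtain ⟨m, hm⟩ := key1 j
          exact ⟨m, fun L h1 h2 => hm b hb L h1 h2⟩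
        · exact ⟨0, fun L _ _ => by rw [map_zero]; exact Submodule.zero_mem _⟩
        · rintro x y ⟨m, hm⟩ ⟨m', hm'⟩
          refine ⟨max m m', fun L h1 h2 => ?_⟩
          rw [map_add]
          exact Submodule.add_mem _ (hm L h1 (lt_of_le_of_lt (le_max_left _ _) h2))
            (hm' L h1 (lt_of_le_of_lt (le_max_right _ _) h2))
      obtain ⟨m, hm⟩ := h9 x hx
      refine ⟨m, fun ω hω => ?_⟩
      induction hω using Submodule.span_induction with
      | mem w hw =>
        obtain ⟨L, h1, h2, rfl⟩ := hw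
        exact hm L h1 h2
      | zero => exact Submodule.zero_mem _
      | add a b _ _ ha hb => exact Submodule.add_mem _ ha hb
      | smul c a _ ha => exact Submodule.smul_mem _ c ha
    obtain ⟨m, hm⟩ := key
    obtain ⟨ω, hω, h1⟩ := hz m
    have h2 := (XX P B' B n).add_mem (hMX n h1) (hm ω hω)
    rwa [sub_add_cancel] at h2
  exact Filt.step M _ (Filt.step _ M hF hMB' iM sep1) (fun x hx => hXB 0 (hMX 0 hx)) iB sep2

end Pool.Agent.U89.UF
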