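import Pool.Agent.U89.UF.Chain
import Pool.Agent.U89.ML.Grp
import Pool.Agent.U89.ML.Ent

/-!
# Unipotent finitary kernels: the group
-/

set_option autoImplicit false
set_option linter.unusedSectionVars false

namespace Pool.Agent.U89.UF

open Pool.Agent.Y110.FJ
open Pool.Agent.U89.ML (ring_mul ring_comm ring_conj grp_sup)
open scoped commutatorElement

/-! ### rings -/

section ring

variable {R : Type} [Ring R]

/-- the subgroup of the units congruent to one modulo `J` -/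
def cong (J : AddSubgroup R) (hJ : ∀ x ∈ J, ∀ y ∈ J, x * y ∈ J) : Subgroup Rˣ where
  carrier := {a | (a : R) - 1 ∈ J ∧ ((a⁻¹ : Rˣ) : R) - 1 ∈ J}
  one_mem' := by
    constructor
    · rw [Units.val_one, sub_self]; exact J.zero_mem
    · rw [inv_one, Units.val_one, sub_self]; exact J.zero_mem
  mul_mem' := by
    rintro a b ⟨h1, h2⟩ ⟨h3, h4⟩
    constructor
    · rw [Units.val_mul, ring_mul]
      exact J.add_mem (J.add_mem h1 h3) (hJ _ h1 _ h3)
    · rw [mul_inv_rev, Units.val_mul, ring_mul]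
      exact J.add_mem (J.add_mem h4 h2) (hJ _ h4 _ h2)
  inv_mem' := by
    rintro a ⟨h1, h2⟩
    exact ⟨h2, by rw [inv_inv]; exact h1⟩

theorem mem_cong {J : AddSubgroup R} {hJ : ∀ x ∈ J, ∀ y ∈ J, x * y ∈ J} {a : Rˣ} :
    a ∈ cong J hJ ↔ (a : R) - 1 ∈ J ∧ ((a⁻¹ : Rˣ) : R) - 1 ∈ J := Iff.rfl

theorem comm_mem {J0 J1 T : AddSubgroup R} (h10 : J1 ≤ J0) (h0 : ∀ x ∈ J0, ∀ y ∈ J0, x * y ∈ J0)
    (h11 : ∀ x ∈ J1, ∀ y ∈ J1, x * y ∈ T) (hT : ∀ x ∈ T, ∀ y ∈ J0, x * y ∈ T)
    {a b : Rˣ} (ha : (a : R) - 1 ∈ J1 ∧ ((a⁻¹ : Rˣ) : R) - 1 ∈ J1)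
    (hb : (b : R) - 1 ∈ J1 ∧ ((b⁻¹ : Rˣ) : R) - 1 ∈ J1) :
    ((⁅a, b⁆ : Rˣ) : R) - 1 ∈ T := by
  have h1 : ((a⁻¹ * b⁻¹ : Rˣ) : R) - 1 ∈ J0 := by
    rw [Units.val_mul, ring_mul]
    exact J0.add_mem (J0.add_mem (h10 ha.2) (h10 hb.2)) (h0 _ (h10 ha.2) _ (h10 hb.2))
  have h2 : ((a : R) - 1) * ((b : R) - 1) - ((b : R) - 1) * ((a : R) - 1) ∈ T :=
    T.sub_mem (h11 _ ha.1 _ hb.1) (h11 _ hb.1 _ ha.1)
  have h4 : (b : R) * (a : R) * ((a⁻¹ * b⁻¹ : Rˣ) : R) = 1 := by
    rw [← Units.val_mul, ← Units.val_mul, ← Units.val_one]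
    congr 1
    group
  have h5 : ((⁅a, b⁆ : Rˣ) : R) = (a : R) * (b : R) * ((a⁻¹ * b⁻¹ : Rˣ) : R) := by
    rw [← Units.val_mul, ← Units.val_mul]
    congr 1
    rw [commutatorElement_def]
    group
  rw [h5, ring_comm _ _ _ h4]
  exact T.add_mem h2 (hT _ h2 _ h1)

theorem ring_derived (J : ℕ → AddSubgroup R) (h10 : ∀ k, J k ≤ J 0)
    (h11 : ∀ k, ∀ x ∈ J k, ∀ y ∈ J k, x * y ∈ J (k + 1))
    (hT : ∀ k, ∀ x ∈ J (k + 1), ∀ y ∈ J 0, x * y ∈ J (k + 1))
    {X : Type} [Group X] (φ : X →* Rˣ)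
    (hX : ∀ x, (φ x : R) - 1 ∈ J 0) (k : ℕ) :
    ∀ x ∈ derivedSeries X k, (φ x : R) - 1 ∈ J k ∧ (((φ x)⁻¹ : Rˣ) : R) - 1 ∈ J k := by
  have h0 : ∀ x ∈ J 0, ∀ y ∈ J 0, x * y ∈ J 0 := fun x hx y hy => h10 1 (h11 0 x hx y hy)
  induction k with
  | zero =>
    intro x _
    refine ⟨hX x, ?_⟩
    rw [← map_inv]
    exact hX _
  | succ k ih =>
    have h3 : ∀ x ∈ J (k + 1), ∀ y ∈ J (k + 1), x * y ∈ J (k + 1) :=
      fun x hx y hy => hT k x hx y (h10 _ hy)
    have h4 : derivedSeries X (k + 1) ≤ (cong (J (k + 1)) h3).comap φ := by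
      rw [derivedSeries_succ, Subgroup.commutator_le]
      intro a ha b hb
      rw [Subgroup.mem_comap, map_commutatorElement, mem_cong]
      refine ⟨comm_mem (h10 k) h0 (h11 k) (hT k) (ih a ha) (ih b hb), ?_⟩
      rw [commutatorElement_inv]
      exact comm_mem (h10 k) h0 (h11 k) (hT k) (ih b hb) (ih a ha)
    exact fun x hx => h4 hx

end ring

variable {F V : Type} [Field F] [AddCommGroup V] [Module F V]

theorem nn_mul {P : (Module.End F V)ˣ} {T : Set (Module.End F V)} {m k : ℕ}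
    {x y : Module.End F V} (hx : x ∈ nn P T m) (hy : y ∈ nn P T k) : x * y ∈ nn P T (m + k + 1) := by
  induction hx using Submodule.span_induction with
  | mem w hw =>
    obtain ⟨L, h1, h2, rfl⟩ := hw
    induction hy using Submodule.span_induction with
    | mem w hw =>
      obtain ⟨L', h1', h2', rfl⟩ := hw
      refine Submodule.subset_span ⟨L ++ L', h1.append h1', ?_, (wd_append _ _ _).symm⟩
      rw [List.length_append]
      omega
    | zero => rw [mul_zero]; exact Submodule.zero_mem _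
    | add a b _ _ ha hb => rw [mul_add]; exact Submodule.add_mem _ ha hb
    | smul c a _ ha => rw [mul_smul_comm]; exact Submodule.smul_mem _ c ha
  | zero => rw [zero_mul]; exact Submodule.zero_mem _
  | add a b _ _ ha hb => rw [add_mul]; exact Submodule.add_mem _ ha hb
  | smul c a _ ha => rw [smul_mul_assoc]; exact Submodule.smul_mem _ c ha

theorem nn_mul0 {P : (Module.End F V)ˣ} {T : Set (Module.End F V)} :
    ∀ x ∈ (nn P T 0).toAddSubgroup, ∀ y ∈ (nn P T 0).toAddSubgroup,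
      x * y ∈ (nn P T 0).toAddSubgroup := by
  intro x hx y hy
  have hx' : x ∈ nn P T 0 := hx
  have hy' : y ∈ nn P T 0 := hy
  have h1 := nn_mul hx' hy'
  have h2 : x * y ∈ nn P T 0 := nn_anti P T (Nat.zero_le (0 + 0 + 1)) h1
  exact h2

theorem nn_mul1 {P : (Module.End F V)ˣ} {T : Set (Module.End F V)} (k : ℕ) :
    ∀ x ∈ (nn P T k).toAddSubgroup, ∀ y ∈ (nn P T k).toAddSubgroup,
      x * y ∈ (nn P T (k + 1)).toAddSubgroup := by
  intro x hx y hy
  have hx' : x ∈ nn P T k := hx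
  have hy' : y ∈ nn P T k := hy
  have h1 := nn_mul hx' hy'
  have h3 : k + 1 ≤ k + k + 1 := by omega
  have h2 : x * y ∈ nn P T (k + 1) := nn_anti P T h3 h1
  exact h2

theorem nn_mul2 {P : (Module.End F V)ˣ} {T : Set (Module.End F V)} (k : ℕ) :
    ∀ x ∈ (nn P T (k + 1)).toAddSubgroup, ∀ y ∈ (nn P T 0).toAddSubgroup,
      x * y ∈ (nn P T (k + 1)).toAddSubgroup := by
  intro x hx y hy
  have hx' : x ∈ nn P T (k + 1) := hx
  have hy' : y ∈ nn P T 0 := hy
  have h1 := nn_mul hx' hy'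
  have h3 : k + 1 ≤ k + 1 + 0 + 1 := by omega
  have h2 : x * y ∈ nn P T (k + 1) := nn_anti P T h3 h1
  exact h2

/-- the set of the differences -/
def TT (E : Set (Module.End F V)ˣ) : Set (Module.End F V) :=
  {t | ∃ e ∈ E, t = (e : Module.End F V) - 1 ∨ t = ((e⁻¹ : (Module.End F V)ˣ) : Module.End F V) - 1}

theorem TT_finite {E : Set (Module.End F V)ˣ} (hE : E.Finite) : (TT E).Finite := by
  have h1 : TT E ⊆ (fun e : (Module.End F V)ˣ => (e : Module.End F V) - 1) '' E ∪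
      (fun e : (Module.End F V)ˣ => ((e⁻¹ : (Module.End F V)ˣ) : Module.End F V) - 1) '' E := by
    rintro t ⟨e, he, h | h⟩
    · exact Or.inl ⟨e, he, h.symm⟩
    · exact Or.inr ⟨e, he, h.symm⟩
  exact ((hE.image _).union (hE.image _)).subset h1

/-- the conjugates of the elements of `E` by the powers of `P` with exponent at most `r` -/
def gens (P : (Module.End F V)ˣ) (E : Set (Module.End F V)ˣ) (r : ℕ) : Set (Module.End F V)ˣ :=
  {a | ∃ i : ℤ, |i| ≤ (r : ℤ) ∧ ∃ e ∈ E, a = P ^ i * e * (P ^ i)⁻¹}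

/-- all conjugates -/
def gensA (P : (Module.End F V)ˣ) (E : Set (Module.End F V)ˣ) : Set (Module.End F V)ˣ :=
  {a | ∃ i : ℤ, ∃ e ∈ E, a = P ^ i * e * (P ^ i)⁻¹}

theorem gen_val {P : (Module.End F V)ˣ} {E : Set (Module.End F V)ˣ} {i : ℤ}
    {e : (Module.End F V)ˣ} (he : e ∈ E) :
    (((P ^ i * e * (P ^ i)⁻¹ : (Module.End F V)ˣ) : Module.End F V) - 1 =
      wd P [(i, (e : Module.End F V) - 1)] ∧ Ok (TT E) [(i, (e : Module.End F V) - 1)]) ∧
    ((((P ^ i * e * (P ^ i)⁻¹)⁻¹ : (Module.End F V)ˣ) : Module.End F V) - 1 =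
      wd P [(i, ((e⁻¹ : (Module.End F V)ˣ) : Module.End F V) - 1)] ∧
      Ok (TT E) [(i, ((e⁻¹ : (Module.End F V)ˣ) : Module.End F V) - 1)]) := by
  have key : ∀ e : (Module.End F V)ˣ, ((P ^ i * e * (P ^ i)⁻¹ : (Module.End F V)ˣ) :
      Module.End F V) - 1 = wd P [(i, (e : Module.End F V) - 1)] := by
    intro e
    rw [wd_cons, wd_nil, mul_one]
    show _ = Pz P i * ((e : Module.End F V) - 1) * Pz P (-i)
    have h1 : ((P ^ i)⁻¹ : (Module.End F V)ˣ) = P ^ (-i) := (zpow_neg P i).symm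
    rw [h1, Units.val_mul, Units.val_mul]
    show Pz P i * (e : Module.End F V) * Pz P (-i) - 1 = _
    rw [mul_sub, sub_mul, mul_one, Pz_mul_neg]
  refine ⟨⟨key e, ?_⟩, ?_, ?_⟩
  · intro q hq
    rw [List.mem_singleton] at hq
    rw [hq]
    exact ⟨e, he, Or.inl rfl⟩
  · have h2 : (P ^ i * e * (P ^ i)⁻¹)⁻¹ = P ^ i * e⁻¹ * (P ^ i)⁻¹ := by group
    rw [h2]
    exact key e⁻¹
  · intro q hq
    rw [List.mem_singleton] at hq
    rw [hq]
    exact ⟨e, he, Or.inr rfl⟩

/-- the words with bounded indices -/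
def DD (P : (Module.End F V)ˣ) (T : Set (Module.End F V)) (r : ℕ) : Submodule F (Module.End F V) :=
  Submodule.span F {w | ∃ L, Ok T L ∧ (∀ q ∈ L, |q.1| ≤ (r : ℤ)) ∧ 0 < L.length ∧ w = wd P L}

theorem DD_mul {P : (Module.End F V)ˣ} {T : Set (Module.End F V)} {r : ℕ}
    {x y : Module.End F V} (hx : x ∈ DD P T r) (hy : y ∈ DD P T r) : x * y ∈ DD P T r := by
  induction hx using Submodule.span_induction with
  | mem w hw =>
    obtain ⟨L, h1, h2, h3, rfl⟩ := hw
    induction hy using Submodule.span_induction with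
    | mem w hw =>
      obtain ⟨L', h1', h2', h3', rfl⟩ := hw
      refine Submodule.subset_span ⟨L ++ L', h1.append h1', ?_, ?_, (wd_append _ _ _).symm⟩
      · intro q hq
        rcases List.mem_append.1 hq with hq | hq
        · exact h2 q hq
        · exact h2' q hq
      · rw [List.length_append]
        omega
    | zero => rw [mul_zero]; exact Submodule.zero_mem _
    | add a b _ _ ha hb => rw [mul_add]; exact Submodule.add_mem _ ha hb
    | smul c a _ ha => rw [mul_smul_comm]; exact Submodule.smul_mem _ c ha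
  | zero => rw [zero_mul]; exact Submodule.zero_mem _
  | add a b _ _ ha hb => rw [add_mul]; exact Submodule.add_mem _ ha hb
  | smul c a _ ha => rw [smul_mul_assoc]; exact Submodule.smul_mem _ c ha

theorem DD_finite {P : (Module.End F V)ˣ} {T : Set (Module.End F V)} (hLN : LN P T)
    (hT : T.Finite) (r : ℕ) : FiniteDimensional F (DD P T r) := by
  obtain ⟨m, hm⟩ := hLN r
  let α : Type := {q : ℤ × Module.End F V // |q.1| ≤ (r : ℤ) ∧ q.2 ∈ T}
  have hα : Finite α := by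
    have h1 : ({q : ℤ × Module.End F V | |q.1| ≤ (r : ℤ) ∧ q.2 ∈ T}).Finite := by
      refine ((Set.finite_Icc (-(r : ℤ)) r).prod hT).subset ?_
      rintro ⟨i, t⟩ ⟨h1, h2⟩
      exact ⟨abs_le.1 h1, h2⟩
    exact h1.to_subtype
  have h2 : {w | ∃ L, Ok T L ∧ (∀ q ∈ L, |q.1| ≤ (r : ℤ)) ∧ 0 < L.length ∧ w = wd P L} ⊆
      insert 0 ((fun L : List α => wd P (L.map Subtype.val)) '' {L | L.length < m}) := by
    rintro w ⟨L, h3, h4, h5, rfl⟩
    by_cases h6 : m ≤ L.length
    · left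
      exact hm L h3 h4 h6
    · right
      push Not at h6
      refine ⟨L.attach.map fun q => (⟨q.1, h4 q.1 q.2, h3 q.1 q.2⟩ : α), ?_, ?_⟩
      · show (List.map _ _).length < m
        rw [List.length_map, List.length_attach]
        exact h6
      · show wd P ((L.attach.map _).map _) = wd P L
        rw [List.map_map]
        congr 1
        exact List.attach_map_subtype_val L
  have h3 : ((fun L : List α => wd P (L.map Subtype.val)) '' {L | L.length < m}).Finite :=
    (List.finite_length_lt α m).image _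
  exact FiniteDimensional.span_of_finite F ((h3.insert 0).subset h2)

theorem AA_le {P : (Module.End F V)ˣ} {E : Set (Module.End F V)ˣ} {a : (Module.End F V)ˣ}
    (ha : a ∈ Subgroup.closure (gensA P E)) : ∃ r : ℕ, a ∈ Subgroup.closure (gens P E r) := by
  have hmono : ∀ r s : ℕ, r ≤ s → Subgroup.closure (gens P E r) ≤ Subgroup.closure (gens P E s) := by
    intro r s hrs
    refine Subgroup.closure_mono ?_
    rintro a ⟨i, hi, e, he, h⟩
    exact ⟨i, hi.trans (by exact_mod_cast hrs), e, he, h⟩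
  induction ha using Subgroup.closure_induction with
  | mem x hx =>
    obtain ⟨i, e, he, h⟩ := hx
    refine ⟨i.natAbs, Subgroup.subset_closure ⟨i, ?_, e, he, h⟩⟩
    rw [Int.abs_eq_natAbs]
  | one => exact ⟨0, Subgroup.one_mem _⟩
  | mul x y _ _ hx hy =>
    obtain ⟨r, hr⟩ := hx
    obtain ⟨s, hs⟩ := hy
    exact ⟨max r s, Subgroup.mul_mem _ (hmono _ _ (le_max_left _ _) hr)
      (hmono _ _ (le_max_right _ _) hs)⟩
  | inv x _ hx =>
    obtain ⟨r, hr⟩ := hx
    exact ⟨r, Subgroup.inv_mem _ hr⟩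

theorem gens_le_DD {P : (Module.End F V)ˣ} {E : Set (Module.End F V)ˣ} {r : ℕ} :
    Subgroup.closure (gens P E r) ≤ cong (DD P (TT E) r).toAddSubgroup
      (fun _ hx _ hy => DD_mul hx hy) := by
  rw [Subgroup.closure_le]
  rintro a ⟨i, hi, e, he, rfl⟩
  obtain ⟨⟨h1, h2⟩, h3, h4⟩ := gen_val (P := P) (i := i) he
  rw [SetLike.mem_coe, mem_cong, h1, h3]
  constructor
  · refine Submodule.subset_span ⟨_, h2, ?_, by simp, rfl⟩
    intro q hq
    rw [List.mem_singleton] at hq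
    rw [hq]
    exact hi
  · refine Submodule.subset_span ⟨_, h4, ?_, by simp, rfl⟩
    intro q hq
    rw [List.mem_singleton] at hq
    rw [hq]
    exact hi

theorem gensA_le_nn {P : (Module.End F V)ˣ} {E : Set (Module.End F V)ˣ} :
    Subgroup.closure (gensA P E) ≤ cong (nn P (TT E) 0).toAddSubgroup nn_mul0 := by
  rw [Subgroup.closure_le]
  rintro a ⟨i, e, he, rfl⟩
  obtain ⟨⟨h1, h2⟩, h3, h4⟩ := gen_val (P := P) (i := i) he
  rw [SetLike.mem_coe, mem_cong, h1, h3]
  constructor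
  · refine Submodule.subset_span ⟨_, h2, ?_, rfl⟩
    rw [List.length_singleton]
    exact Nat.zero_lt_one
  · refine Submodule.subset_span ⟨_, h4, ?_, rfl⟩
    rw [List.length_singleton]
    exact Nat.zero_lt_one

/-- operators which move the chain down by `k + 1` steps -/
def Jc (M : ℕ → Submodule F V) (k : ℕ) : Submodule F (Module.End F V) where
  carrier := {ν | ∀ i, ∀ x ∈ M i, ν x ∈ M (i - (k + 1))}
  add_mem' ha hb := fun i x hx => (M _).add_mem (ha i x hx) (hb i x hx)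
  zero_mem' := fun i _ _ => (M (i - (k + 1))).zero_mem
  smul_mem' c _ ha := fun i x hx => (M _).smul_mem c (ha i x hx)

theorem Jc_mul {M : ℕ → Submodule F V} {k l : ℕ} {x y : Module.End F V} (hx : x ∈ Jc M k)
    (hy : y ∈ Jc M l) : x * y ∈ Jc M (k + l + 1) := by
  intro i z hz
  have h1 := hx _ _ (hy i z hz)
  have h2 : i - (l + 1) - (k + 1) = i - (k + l + 1 + 1) := by omega
  rw [h2] at h1
  exact h1

variable {C : ∀ (G : Type) [Group G], Prop}

/-- the main step -/
theorem C_AP (hC : ClosedE C) (hsol : ∀ (S : Type) [Group S], Group.IsSolvable S → C S)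
    {P : (Module.End F V)ˣ} {E : Set (Module.End F V)ˣ} (hE : E.Finite) (hLN : LN P (TT E))
    {U : Submodule F V} (hU : FiniteDimensional F U) (hT : ∀ t ∈ TT E, ∀ x, t x ∈ U) :
    C ↥(Subgroup.closure (gensA P E) ⊔ Subgroup.zpowers P) := by
  obtain ⟨n, M, hM0, hMn, hMi, hMm, hMs⟩ := (filt_top hLN hU hT).chain
  have hmono : Monotone M := monotone_nat_of_le_succ hMm
  have hJ0 : ∀ k, Jc M k ≤ Jc M 0 := fun k ν hν i x hx => hmono (by omega) (hν i x hx)
  have hJmul : ∀ x ∈ (Jc M 0).toAddSubgroup, ∀ y ∈ (Jc M 0).toAddSubgroup,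
      x * y ∈ (Jc M 0).toAddSubgroup := fun x hx y hy => hJ0 1 (Jc_mul hx hy)
  obtain ⟨A, hA⟩ : ∃ A : Subgroup (Module.End F V)ˣ, A = Subgroup.closure (gensA P E) := ⟨_, rfl⟩
  obtain ⟨K, hK⟩ : ∃ K : Subgroup (Module.End F V)ˣ, K = cong (Jc M 0).toAddSubgroup hJmul ⊓ A :=
    ⟨_, rfl⟩
  have hAmem : ∀ z, z ∈ A → z ∈ Subgroup.closure (gensA P E) := fun z hz => hA ▸ hz
  have hKmem : ∀ z, z ∈ K ↔ (z ∈ cong (Jc M 0).toAddSubgroup hJmul ∧ z ∈ A) := by
    intro z
    rw [hK]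
    exact Subgroup.mem_inf
  rw [← hA]
  have hAnn : ∀ a ∈ A, (a : Module.End F V) - 1 ∈ nn P (TT E) 0 ∧
      ((a⁻¹ : (Module.End F V)ˣ) : Module.End F V) - 1 ∈ nn P (TT E) 0 := by
    intro a ha
    exact mem_cong.1 (gensA_le_nn (hAmem a ha))
  -- elements of `A` preserve the chain
  have hAM : ∀ a ∈ A, ∀ i, ∀ x ∈ M i, (a : Module.End F V) x ∈ M i := by
    intro a ha i x hx
    have h1 := (hMi i).nn (hAnn a ha).1 x hx
    have h2 : (a : Module.End F V) x = ((a : Module.End F V) - 1) x + x := by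
      rw [LinearMap.sub_apply, Module.End.one_apply, sub_add_cancel]
    rw [h2]
    exact (M i).add_mem h1 hx
  -- conjugation
  have hconj : ∀ b c : (Module.End F V)ˣ, b * c = 1 → (∀ i, ∀ x ∈ M i, (b : Module.End F V) x ∈ M i) →
      (∀ i, ∀ x ∈ M i, (c : Module.End F V) x ∈ M i) → ∀ a ∈ cong (Jc M 0).toAddSubgroup hJmul,
      b * a * c ∈ cong (Jc M 0).toAddSubgroup hJmul := by
    intro b c hbc hb hc a ha
    have key : ∀ a : (Module.End F V)ˣ, (a : Module.End F V) - 1 ∈ Jc M 0 →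
        ((b * a * c : (Module.End F V)ˣ) : Module.End F V) - 1 ∈ Jc M 0 := by
      intro a ha
      have h1 : ((b * a * c : (Module.End F V)ˣ) : Module.End F V) - 1 =
          (b : Module.End F V) * ((a : Module.End F V) - 1) * (c : Module.End F V) := by
        have h2 : (b : Module.End F V) * (c : Module.End F V) = 1 := by
          rw [← Units.val_mul, hbc, Units.val_one]
        rw [Units.val_mul, Units.val_mul, mul_sub, sub_mul, mul_one, h2]
      rw [h1]
      intro i x hx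
      exact hb _ _ (ha i _ (hc i x hx))
    rw [mem_cong] at ha ⊢
    refine ⟨key a ha.1, ?_⟩
    have h3 : (b * a * c)⁻¹ = b * a⁻¹ * c := by
      have h4 : c = b⁻¹ := eq_inv_of_mul_eq_one_right hbc
      rw [h4]
      group
    rw [h3]
    exact key a⁻¹ ha.2
  have hPA : ∀ k : ℤ, ∀ a ∈ A, P ^ k * a * (P ^ k)⁻¹ ∈ A := by
    intro k
    have h1 : A ≤ A.comap (MulAut.conj (P ^ k)).toMonoidHom := by
      conv_lhs => rw [hA]
      rw [Subgroup.closure_le]
      rintro a ⟨i, e, he, rfl⟩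
      show P ^ k * (P ^ i * e * (P ^ i)⁻¹) * (P ^ k)⁻¹ ∈ A
      rw [hA]
      refine Subgroup.subset_closure ⟨k + i, e, he, ?_⟩
      rw [zpow_add]
      group
    exact fun a ha => h1 ha
  have hPz : ∀ k : ℤ, ∀ i, ∀ x ∈ M i, ((P ^ k : (Module.End F V)ˣ) : Module.End F V) x ∈ M i :=
    fun k i x hx => (hMi i).pz k x hx
  have hPK : ∀ k : ℤ, ∀ a ∈ K, P ^ k * a * (P ^ k)⁻¹ ∈ K := by
    intro k a ha
    rw [hKmem] at ha ⊢
    refine ⟨hconj _ _ (mul_inv_cancel _) (hPz k) ?_ a ha.1, hPA k a ha.2⟩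
    intro i x hx
    rw [← zpow_neg]
    exact hPz (-k) i x hx
  refine grp_sup hC hsol A K P (fun z hz => ((hKmem z).1 hz).2) ?_ ?_ ?_ ?_ ?_ ?_ ?_
  · intro a ha b hb
    rw [hKmem] at hb ⊢
    refine ⟨hconj a a⁻¹ (mul_inv_cancel a) (hAM a ha) (hAM a⁻¹ (A.inv_mem ha)) b hb.1, ?_⟩
    exact A.mul_mem (A.mul_mem ha hb.2) (A.inv_mem ha)
  · intro a ha
    have h1 := hPA 1 a ha
    rwa [zpow_one] at h1
  · intro a ha
    have h1 := hPA (-1) a ha
    rwa [zpow_neg_one, inv_inv] at h1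
  · intro a ha
    have h1 := hPK 1 a ha
    rwa [zpow_one] at h1
  · intro a ha
    have h1 := hPK (-1) a ha
    rwa [zpow_neg_one, inv_inv] at h1
  · -- solvable
    refine ⟨⟨n, ?_⟩⟩
    rw [eq_bot_iff]
    intro a ha
    have h1 := ring_derived (fun k => (Jc M k).toAddSubgroup) (fun k => hJ0 k)
      (fun k x hx y hy => by
        have h2 := Jc_mul hx hy
        intro i z hz
        exact hmono (by omega) (h2 i z hz))
      (fun k x hx y hy => by
        have h2 := Jc_mul hx hy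
        intro i z hz
        exact hmono (by omega) (h2 i z hz)) K.subtype
      (fun x => (mem_cong.1 ((hKmem _).1 x.2).1).1) n a ha
    rw [Subgroup.mem_bot]
    apply Subtype.ext
    apply Units.ext
    apply sub_eq_zero.1
    apply LinearMap.ext
    intro x
    have h2 : x ∈ M n := by rw [hMn n le_rfl]; trivial
    have h3 := h1.1 n x h2
    have h4 : n - (n + 1) = 0 := by omega
    rw [h4, hM0] at h3
    exact h3
  · -- detection
    intro E0 hE0
    have hr : ∃ r : ℕ, ∀ x ∈ E0, (x : (Module.End F V)ˣ) ∈ Subgroup.closure (gens P E r) := by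
      have h1 : ∀ x : A, ∃ r : ℕ, (x : (Module.End F V)ˣ) ∈ Subgroup.closure (gens P E r) := by
        intro x
        exact AA_le (hAmem _ x.2)
      choose ρ hρ using h1
      obtain ⟨r, hr⟩ := (hE0.image ρ).bddAbove
      refine ⟨r, fun x hx => ?_⟩
      have h3 : ρ x ≤ r := hr ⟨x, hx, rfl⟩
      refine Subgroup.closure_mono ?_ (hρ x)
      rintro a ⟨i, hi, e, he, h⟩
      exact ⟨i, hi.trans (by exact_mod_cast h3), e, he, h⟩
    obtain ⟨r, hr⟩ := hr
    have hD := DD_finite hLN (TT_finite hE) r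
    -- the stabilizing sequence
    let Q : ℕ → Submodule F (DD P (TT E) r) := fun m =>
      (nn P (TT E) m ⊔ Jc M 0).comap (DD P (TT E) r).subtype
    have hQ : Antitone Q := fun m m' h => Submodule.comap_mono (sup_le_sup_right (nn_anti P _ h) _)
    obtain ⟨k, hk⟩ := IsArtinian.monotone_stabilizes (R := F) (M := DD P (TT E) r)
      ⟨fun n => OrderDual.toDual (Q n), hQ⟩
    have hkQ : ∀ m, Q k ≤ Q m := by
      intro m
      rcases le_total k m with h1 | h1
      · have h2 : Q k = Q m := OrderDual.toDual.injective (hk m h1)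
        exact h2.le
      · exact hQ h1
    refine ⟨k, fun x hx y hy hxy => ?_⟩
    have hxD : (x : (Module.End F V)ˣ) ∈ cong (DD P (TT E) r).toAddSubgroup
        (fun _ hx _ hy => DD_mul hx hy) := by
      apply gens_le_DD
      have h1 : Subgroup.closure E0 ≤ (Subgroup.closure (gens P E r)).comap A.subtype := by
        rw [Subgroup.closure_le]
        exact fun z hz => hr z hz
      exact h1 hx
    have hyn := ring_derived (fun k => (nn P (TT E) k).toAddSubgroup)
      (fun k => nn_anti P (TT E) (Nat.zero_le k)) nn_mul1 nn_mul2 A.subtype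
      (fun x => (hAnn x x.2).1) k y hy
    have key : ∀ δ : DD P (TT E) r, δ ∈ Q k → (δ : Module.End F V) ∈ Jc M 0 := by
      intro δ hδ
      have h1 : ∀ m, ∃ ω ∈ nn P (TT E) m, ∃ κ ∈ Jc M 0, ω + κ = (δ : Module.End F V) :=
        fun m => Submodule.mem_sup.1 (hkQ m hδ)
      intro i z hz
      rcases Nat.eq_zero_or_pos i with h0 | h0
      · subst h0
        rw [hM0] at hz
        have h2 : z = 0 := hz
        rw [h2, map_zero]
        exact Submodule.zero_mem _
      · obtain ⟨i', rfl⟩ : ∃ i', i = i' + 1 := ⟨i - 1, by omega⟩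
        have h5 : i' + 1 - (0 + 1) = i' := by omega
        rw [h5]
        refine hMs i' z hz _ fun m => ?_
        obtain ⟨ω, hω, κ, hκ, h2⟩ := h1 m
        refine ⟨ω, hω, ?_⟩
        have h3 := hκ (i' + 1) z hz
        rw [h5] at h3
        have h4 : (δ : Module.End F V) z - ω z = κ z := by
          rw [← h2, LinearMap.add_apply, add_sub_cancel_left]
        rw [h4]
        exact h3
    have hsub : ∀ δ : Module.End F V, δ ∈ DD P (TT E) r → δ ∈ nn P (TT E) k ⊔ Jc M 0 → δ ∈ Jc M 0 :=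
      fun δ h1 h2 => key ⟨δ, h1⟩ h2
    have hstab : ∀ a ∈ A, ∀ ν ∈ Jc M 0, (a : Module.End F V) * ν ∈ Jc M 0 := by
      intro a ha ν hν i z hz
      exact hAM a ha _ _ (hν i z hz)
    have hstab' : ∀ a ∈ A, ∀ ν ∈ Jc M 0, ν * (a : Module.End F V) ∈ Jc M 0 := by
      intro a ha ν hν i z hz
      exact hν i _ (hAM a ha i z hz)
    rw [hKmem] at hxy ⊢
    refine ⟨?_, x.2⟩
    have hc := mem_cong.1 hxy.1
    rw [mem_cong] at hxD ⊢
    constructor
    · refine hsub _ hxD.1 ?_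
      have h1 : ((x : (Module.End F V)ˣ) : Module.End F V) - 1 =
          (((y : (Module.End F V)ˣ) : Module.End F V) - 1) +
          -(((x : (Module.End F V)ˣ) : Module.End F V) *
            ((((x : (Module.End F V)ˣ)⁻¹ * (y : (Module.End F V)ˣ) : (Module.End F V)ˣ) :
              Module.End F V) - 1)) := by
        rw [mul_sub, ← Units.val_mul, mul_inv_cancel_left, mul_one]
        abel
      rw [h1]
      exact Submodule.add_mem_sup hyn.1 ((Jc M 0).neg_mem (hstab _ x.2 _ hc.1))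
    · refine hsub _ hxD.2 ?_
      have h1 : (((x : (Module.End F V)ˣ)⁻¹ : (Module.End F V)ˣ) : Module.End F V) - 1 =
          ((((y : (Module.End F V)ˣ)⁻¹ : (Module.End F V)ˣ) : Module.End F V) - 1) +
          (((((x : (Module.End F V)ˣ)⁻¹ * (y : (Module.End F V)ˣ) : (Module.End F V)ˣ) :
              Module.End F V) - 1) *
            (((y : (Module.End F V)ˣ)⁻¹ : (Module.End F V)ˣ) : Module.End F V)) := by
        rw [sub_mul, ← Units.val_mul, mul_inv_cancel_right, one_mul]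
        abel
      rw [h1]
      exact Submodule.add_mem_sup hyn.2 (hstab' _ (A.inv_mem y.2) _ hc.1)

end Pool.Agent.U89.UF
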