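import Pool.Agent.U89.UF.Grp
import Pool.Agent.Y759.TS.Kol

/-!
# Unipotent finitary kernels: local nilpotence from Kolchin's theorem
-/

set_option autoImplicit false
set_option linter.unusedSectionVars false

namespace Pool.Agent.U89.UF

variable {F V : Type} [Field F] [AddCommGroup V] [Module F V]

/-- Kolchin's theorem for endomorphisms of a finite dimensional space -/
theorem kol_end {U : Type} [AddCommGroup U] [Module F U] [FiniteDimensional F U]
    {G : Type} [Group G] (φ : G →* Module.End F U) (h : ∀ g, IsNilpotent (φ g - 1))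
    (l : List G) (hl : l.length = Module.finrank F U) : (l.map fun g => φ g - 1).prod = 0 := by
  let b := Module.finBasis F U
  let e : Module.End F U ≃ₐ[F] Matrix (Fin (Module.finrank F U)) (Fin (Module.finrank F U)) F :=
    LinearMap.toMatrixAlgEquiv b
  let ρ : G →* GL (Fin (Module.finrank F U)) F :=
    (Units.map (e : Module.End F U →* Matrix (Fin (Module.finrank F U))
      (Fin (Module.finrank F U)) F)).comp φ.toHomUnits
  have hρ : ∀ g, ((ρ g : GL (Fin (Module.finrank F U)) F) :
      Matrix (Fin (Module.finrank F U)) (Fin (Module.finrank F U)) F) - 1 = e (φ g - 1) := by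
    intro g
    rw [map_sub, map_one]
    rfl
  have h1 := Pool.Agent.Y759.TS.t_KOL F G (Module.finrank F U) ρ (by
    intro g
    obtain ⟨r, hr⟩ := h g
    refine ⟨r, ?_⟩
    rw [hρ, ← map_pow, hr, map_zero]) (fun i => l.get (i.cast hl.symm))
  apply e.injective
  rw [map_zero, map_list_prod, ← h1]
  congr 1
  rw [List.map_map]
  apply List.ext_get
  · simp [hl]
  · intro i h2 h3
    simp only [List.get_eq_getElem, List.getElem_map, List.getElem_ofFn, Function.comp_apply]
    rw [hρ]
    rfl

/-- the difference to the identity -/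
def dm (g : (Module.End F V)ˣ) : Module.End F V := (g : Module.End F V) - 1

/-- a finitary unipotent group -/
structure FinUnip (N : Subgroup (Module.End F V)ˣ) : Prop where
  fin : ∀ n ∈ N, FiniteDimensional F (LinearMap.range ((n : Module.End F V) - 1))
  nil : ∀ n ∈ N, IsNilpotent ((n : Module.End F V) - 1)

/-- operators with range in `U` -/
def RR (U : Submodule F V) : AddSubgroup (Module.End F V) where
  carrier := {ν | ∀ x, ν x ∈ U}
  add_mem' ha hb := fun x => U.add_mem (ha x) (hb x)
  zero_mem' := fun _ => U.zero_mem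
  neg_mem' ha := fun x => U.neg_mem (ha x)

theorem RR_mul {U : Submodule F V} : ∀ x ∈ RR U, ∀ y ∈ RR U, x * y ∈ RR U :=
  fun _ hx _ _ _ => hx _

theorem exists_U {N : Subgroup (Module.End F V)ˣ} (hN : FinUnip N)
    {G' : Set (Module.End F V)ˣ} (hG' : G'.Finite) (hG'N : G' ⊆ N) :
    ∃ U : Submodule F V, FiniteDimensional F U ∧ Subgroup.closure G' ≤ cong (RR U) RR_mul := by
  refine ⟨⨆ g : G', LinearMap.range (((g : (Module.End F V)ˣ) : Module.End F V) - 1), ?_, ?_⟩
  · have : Finite G' := hG'
    have : ∀ g : G', FiniteDimensional F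
        (LinearMap.range (((g : (Module.End F V)ˣ) : Module.End F V) - 1)) :=
      fun g => hN.fin _ (hG'N g.2)
    exact Submodule.finiteDimensional_iSup _
  · rw [Subgroup.closure_le]
    intro g hg
    have h1 : ∀ x, ((g : Module.End F V) - 1) x ∈
        ⨆ g : G', LinearMap.range (((g : (Module.End F V)ˣ) : Module.End F V) - 1) :=
      fun x => Submodule.mem_iSup_of_mem ⟨g, hg⟩ ⟨x, rfl⟩
    rw [SetLike.mem_coe, mem_cong]
    refine ⟨h1, ?_⟩
    intro x
    have h2 : ((g⁻¹ : (Module.End F V)ˣ) : Module.End F V) - 1 =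
        -(((g : Module.End F V) - 1) * ((g⁻¹ : (Module.End F V)ˣ) : Module.End F V)) := by
      rw [sub_mul, one_mul, Units.mul_inv]
      abel
    rw [h2]
    exact Submodule.neg_mem _ (h1 _)

theorem kol_fin {N : Subgroup (Module.End F V)ˣ} (hN : FinUnip N)
    {G' : Set (Module.End F V)ˣ} (hG' : G'.Finite) (hG'N : G' ⊆ N) :
    ∃ m : ℕ, ∀ l : List (Module.End F V)ˣ, (∀ g ∈ l, g ∈ G') → m ≤ l.length →
      (l.map dm).prod = 0 := by
  obtain ⟨U, hU, hle⟩ := exists_U hN hG' hG'N
  refine ⟨Module.finrank F U + 1, ?_⟩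
  -- the representation on `U`
  have hpres : ∀ g ∈ Subgroup.closure G', ∀ x ∈ U, (g : Module.End F V) x ∈ U := by
    intro g hg x hx
    have h1 := (mem_cong.1 (hle hg)).1 x
    have h2 : (g : Module.End F V) x = ((g : Module.End F V) - 1) x + x := by
      rw [LinearMap.sub_apply, Module.End.one_apply, sub_add_cancel]
    rw [h2]
    exact U.add_mem h1 hx
  let φ : Subgroup.closure G' →* Module.End F U :=
    { toFun := fun g => ((g : (Module.End F V)ˣ) : Module.End F V).restrict (hpres g g.2)
      map_one' := by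
        apply LinearMap.ext
        intro x
        rfl
      map_mul' := by
        intro a b
        apply LinearMap.ext
        intro x
        rfl }
  have hφ : ∀ (g : Subgroup.closure G') (x : U), (((φ g - 1) x : U) : V) =
      (((g : (Module.End F V)ˣ) : Module.End F V) - 1) (x : V) := by
    intro g x
    rfl
  have hleN : Subgroup.closure G' ≤ N := (Subgroup.closure_le N).2 hG'N
  have hnil : ∀ g, IsNilpotent (φ g - 1) := by
    intro g
    obtain ⟨r, hr⟩ := hN.nil _ (hleN g.2)
    refine ⟨r, ?_⟩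
    have h1 : ∀ r : ℕ, ∀ x : U, ((((φ g - 1) ^ r) x : U) : V) =
        ((((g : (Module.End F V)ˣ) : Module.End F V) - 1) ^ r) (x : V) := by
      intro r
      induction r with
      | zero => intro x; rfl
      | succ r ih =>
        intro x
        rw [pow_succ, pow_succ]
        show ((((φ g - 1) ^ r) ((φ g - 1) x) : U) : V) = _
        rw [ih]
        rfl
    apply LinearMap.ext
    intro x
    apply Subtype.ext
    rw [h1, hr]
    rfl
  have hprod : ∀ l : List (Subgroup.closure G'), ∀ x : U,
      ((((l.map fun g => φ g - 1).prod) x : U) : V) =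
      ((l.map fun g : Subgroup.closure G' => dm (g : (Module.End F V)ˣ)).prod) (x : V) := by
    intro l
    induction l with
    | nil => intro x; rfl
    | cons g l ih =>
      intro x
      rw [List.map_cons, List.prod_cons, List.map_cons, List.prod_cons]
      show (((φ g - 1) ((l.map fun g => φ g - 1).prod x) : U) : V) = _
      rw [hφ, ih]
      rfl
  intro l hl hlen
  -- split
  obtain ⟨l1, l2, hl12, hl1, hl2⟩ : ∃ l1 l2, l = l1 ++ l2 ∧ l1.length = Module.finrank F U ∧
      l2 ≠ [] := by
    refine ⟨l.take (Module.finrank F U), l.drop (Module.finrank F U),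
      (List.take_append_drop _ l).symm, ?_, ?_⟩
    · rw [List.length_take]
      omega
    · intro h0
      have h1 := congrArg List.length h0
      rw [List.length_drop, List.length_nil] at h1
      omega
  have hl1' : ∀ g ∈ l1, g ∈ Subgroup.closure G' := fun g hg =>
    Subgroup.subset_closure (hl g (by rw [hl12]; exact List.mem_append_left _ hg))
  have h2 : ∀ x, ((l2.map dm).prod) x ∈ U := by
    intro x
    rcases l2 with _ | ⟨g, l2⟩
    · exact absurd rfl hl2
    · rw [List.map_cons, List.prod_cons]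
      have hg : g ∈ Subgroup.closure G' :=
        Subgroup.subset_closure (hl g (by rw [hl12]; exact List.mem_append_right _ List.mem_cons_self))
      exact (mem_cong.1 (hle hg)).1 _
  have h3 : ∀ x ∈ U, ((l1.map dm).prod) x = 0 := by
    intro x hx
    let l' : List (Subgroup.closure G') := l1.attach.map fun g => ⟨g.1, hl1' g.1 g.2⟩
    have h4 := kol_end φ hnil l' (by
      show (List.map _ _).length = _
      rw [List.length_map, List.length_attach, hl1])
    have h5 := hprod l' ⟨x, hx⟩
    rw [h4] at h5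
    have h6 : (l'.map fun g : Subgroup.closure G' => dm (g : (Module.End F V)ˣ)) = l1.map dm := by
      show ((l1.attach.map _).map _) = _
      rw [List.map_map]
      conv_rhs => rw [← List.attach_map_subtype_val l1, List.map_map]
      rfl
    rw [h6] at h5
    exact h5.symm
  rw [hl12, List.map_append, List.prod_append]
  apply LinearMap.ext
  intro x
  exact h3 _ (h2 x)

/-- local nilpotence -/
theorem LN_of {N : Subgroup (Module.End F V)ˣ} (hN : FinUnip N) {P : (Module.End F V)ˣ}
    (hP : ∀ k : ℤ, ∀ n ∈ N, P ^ k * n * (P ^ k)⁻¹ ∈ N) {E : Set (Module.End F V)ˣ}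
    (hE : E.Finite) (hEN : E ⊆ N) : LN P (TT E) := by
  intro r
  let G' : Set (Module.End F V)ˣ := {a | ∃ i : ℤ, |i| ≤ (r : ℤ) ∧ ∃ e ∈ E,
    a = P ^ i * e * (P ^ i)⁻¹ ∨ a = (P ^ i * e * (P ^ i)⁻¹)⁻¹}
  have hG'N : G' ⊆ N := by
    rintro a ⟨i, _, e, he, h | h⟩
    · rw [h]; exact hP i e (hEN he)
    · rw [h]; exact N.inv_mem (hP i e (hEN he))
  have hG' : G'.Finite := by
    have h1 : G' ⊆ (fun q : ℤ × (Module.End F V)ˣ => P ^ q.1 * q.2 * (P ^ q.1)⁻¹) ''
        (Set.Icc (-(r : ℤ)) r ×ˢ E) ∪
        (fun q : ℤ × (Module.End F V)ˣ => (P ^ q.1 * q.2 * (P ^ q.1)⁻¹)⁻¹) ''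
        (Set.Icc (-(r : ℤ)) r ×ˢ E) := by
      rintro a ⟨i, hi, e, he, h | h⟩
      · exact Or.inl ⟨(i, e), ⟨abs_le.1 hi, he⟩, h.symm⟩
      · exact Or.inr ⟨(i, e), ⟨abs_le.1 hi, he⟩, h.symm⟩
    have h2 : (Set.Icc (-(r : ℤ)) r ×ˢ E).Finite := (Set.finite_Icc _ _).prod hE
    exact ((h2.image _).union (h2.image _)).subset h1
  obtain ⟨m, hm⟩ := kol_fin hN hG' hG'N
  refine ⟨m, fun L hL hLr hlen => ?_⟩
  have h1 : ∀ q ∈ L, ∃ g ∈ G', (g : Module.End F V) - 1 = Pz P q.1 * q.2 * Pz P (-q.1) := by
    rintro ⟨i, t⟩ hq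
    obtain ⟨e, he, h2⟩ := hL _ hq
    have hi := hLr _ hq
    obtain ⟨⟨h3, _⟩, h4, _⟩ := gen_val (P := P) (i := i) he
    rcases h2 with h2 | h2
    · refine ⟨_, ⟨i, hi, e, he, Or.inl rfl⟩, ?_⟩
      rw [h3, wd_cons, wd_nil, mul_one]
      show _ = Pz P i * t * Pz P (-i)
      rw [show t = (e : Module.End F V) - 1 from h2]
    · refine ⟨_, ⟨i, hi, e, he, Or.inr rfl⟩, ?_⟩
      rw [h4, wd_cons, wd_nil, mul_one]
      show _ = Pz P i * t * Pz P (-i)
      rw [show t = ((e⁻¹ : (Module.End F V)ˣ) : Module.End F V) - 1 from h2]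
  have h5 : ∃ l : List (Module.End F V)ˣ, (∀ g ∈ l, g ∈ G') ∧ l.length = L.length ∧
      (l.map dm) = L.map fun q => Pz P q.1 * q.2 * Pz P (-q.1) := by
    clear hlen hL hLr
    induction L with
    | nil => exact ⟨[], by simp, rfl, rfl⟩
    | cons q L ih =>
      obtain ⟨l, h6, h7, h8⟩ := ih fun z hz => h1 z (List.mem_cons_of_mem _ hz)
      obtain ⟨g, hg, h9⟩ := h1 q List.mem_cons_self
      refine ⟨g :: l, ?_, by rw [List.length_cons, List.length_cons, h7], ?_⟩
      · intro z hz
        rcases List.mem_cons.1 hz with rfl | hz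
        · exact hg
        · exact h6 z hz
      · rw [List.map_cons, List.map_cons, h8, dm, h9]
  obtain ⟨l, h6, h7, h8⟩ := h5
  unfold wd
  rw [← h8]
  exact hm l h6 (by omega)

end Pool.Agent.U89.UF
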