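import Pool.Agent.U89.UF.Kol

/-!
# Unipotent finitary kernels: the main theorem
-/

set_option autoImplicit false
set_option linter.unusedSectionVars false

namespace Pool.Agent.U89.UF

open Pool.Agent.Y110.FJ

/-- the subgroup generated by the conjugates of the elements of `E` by the powers of `g` -/
def orb {G : Type} [Group G] (g : G) (E : Set G) : Subgroup G :=
  Subgroup.closure {x | ∃ i : ℤ, ∃ e ∈ E, x = g ^ i * e * (g ^ i)⁻¹}

/-- every element acts by the identity plus a nilpotent endomorphism of finite rank -/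
def FinitaryUnipotent {F V H : Type} [Field F] [AddCommGroup V] [Module F V] [Group H]
    (j : H →* Module.End F V) : Prop :=
  ∀ x, FiniteDimensional F (LinearMap.range (j x - 1)) ∧ IsNilpotent (j x - 1)

/-- the group `orb g E` has a faithful finitary unipotent representation over some field in which
the conjugation by `g` is induced by a linear automorphism -/
def UnipotentlyRealized {G : Type} [Group G] (g : G) (E : Set G) : Prop :=
  ∃ (F V : Type) (_ : Field F) (_ : AddCommGroup V) (_ : Module F V)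
    (j : orb g E →* Module.End F V) (p : V ≃ₗ[F] V),
    Function.Injective j ∧ FinitaryUnipotent j ∧
    ∀ x y : orb g E, (y : G) = g * x * g⁻¹ → ∀ v, j y (p v) = p (j x v)

variable {C : ∀ (G : Type) [Group G], Prop}

theorem orb_conj {G : Type} [Group G] (g : G) (E : Set G) (k : ℤ) {x : G} (hx : x ∈ orb g E) :
    g ^ k * x * (g ^ k)⁻¹ ∈ orb g E := by
  have h1 : orb g E ≤ (orb g E).comap (MulAut.conj (g ^ k)).toMonoidHom := by
    conv_lhs => unfold orb
    rw [Subgroup.closure_le]
    rintro a ⟨i, e, he, rfl⟩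
    show g ^ k * (g ^ i * e * (g ^ i)⁻¹) * (g ^ k)⁻¹ ∈ orb g E
    refine Subgroup.subset_closure ⟨k + i, e, he, ?_⟩
    rw [zpow_add]
    group
  exact h1 hx

theorem realized (hC : ClosedE C) (hsol : ∀ (S : Type) [Group S], Group.IsSolvable S → C S)
    {G : Type} [Group G] (g : G) (E : Set G) (hE : E.Finite) (h : UnipotentlyRealized g E) :
    Realized C g E := by
  obtain ⟨F, V, _, _, _, j, p, hj, hfu, hconj⟩ := h
  let J : orb g E →* (Module.End F V)ˣ := j.toHomUnits
  have hJval : ∀ x, ((J x : (Module.End F V)ˣ) : Module.End F V) = j x := fun x => rfl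
  let P : (Module.End F V)ˣ :=
    ⟨p.toLinearMap, p.symm.toLinearMap, by ext v; exact p.apply_symm_apply v,
      by ext v; exact p.symm_apply_apply v⟩
  have hJP : ∀ x y : orb g E, (y : G) = g * x * g⁻¹ → J y = P * J x * P⁻¹ := by
    intro x y hy
    rw [eq_mul_inv_iff_mul_eq]
    apply Units.ext
    rw [Units.val_mul, Units.val_mul]
    apply LinearMap.ext
    intro v
    exact hconj x y hy v
  have hJPk : ∀ k : ℕ, ∀ x y : orb g E, (y : G) = g ^ k * x * (g ^ k)⁻¹ →
      J y = P ^ k * J x * (P ^ k)⁻¹ := by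
    intro k
    induction k with
    | zero =>
      intro x y hy
      have h1 : y = x := Subtype.ext (by rw [hy, pow_zero, one_mul, inv_one, mul_one])
      rw [h1, pow_zero, one_mul, inv_one, mul_one]
    | succ k ih =>
      intro x y hy
      have h1 : g ^ k * (x : G) * (g ^ k)⁻¹ ∈ orb g E := by
        have h0 := orb_conj g E (k : ℤ) x.2
        rwa [zpow_natCast] at h0
      have h2 := ih x ⟨_, h1⟩ rfl
      have h3 := hJP ⟨_, h1⟩ y (by
        show (y : G) = g * (g ^ k * (x : G) * (g ^ k)⁻¹) * g⁻¹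
        rw [hy, pow_succ']
        group)
      rw [h3, h2, pow_succ']
      group
  have hJPz : ∀ k : ℤ, ∀ x y : orb g E, (y : G) = g ^ k * x * (g ^ k)⁻¹ →
      J y = P ^ k * J x * (P ^ k)⁻¹ := by
    intro k x y hy
    rcases Int.eq_nat_or_neg k with ⟨n, hn | hn⟩
    · rw [hn, zpow_natCast] at hy ⊢
      exact hJPk n x y hy
    · have h1 := hJPk n y x (by
        rw [hy, hn, zpow_neg, zpow_natCast]
        group)
      rw [h1, hn, zpow_neg, zpow_natCast]
      group
  have hN : FinUnip J.range := by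
    constructor
    · rintro _ ⟨x, rfl⟩
      exact (hfu x).1
    · rintro _ ⟨x, rfl⟩
      exact (hfu x).2
  have hPN : ∀ k : ℤ, ∀ n ∈ J.range, P ^ k * n * (P ^ k)⁻¹ ∈ J.range := by
    rintro k _ ⟨x, rfl⟩
    exact ⟨⟨_, orb_conj g E k x.2⟩, hJPz k x ⟨_, orb_conj g E k x.2⟩ rfl⟩
  have hmem : ∀ e ∈ E, e ∈ orb g E := fun e he =>
    Subgroup.subset_closure ⟨0, e, he, by rw [zpow_zero, one_mul, inv_one, mul_one]⟩
  let E' : Set (Module.End F V)ˣ := J '' ((orb g E).subtype ⁻¹' E)
  have hE'f : E'.Finite := (hE.preimage (orb g E).subtype_injective.injOn).image _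
  have hE'N : E' ⊆ J.range := by
    rintro _ ⟨x, _, rfl⟩
    exact ⟨x, rfl⟩
  have hLN := LN_of hN hPN hE'f hE'N
  obtain ⟨U, hU, hle⟩ := exists_U hN hE'f hE'N
  have hT : ∀ t ∈ TT E', ∀ x, t x ∈ U := by
    rintro t ⟨e, he, h1 | h1⟩
    · rw [h1]
      exact (mem_cong.1 (hle (Subgroup.subset_closure he))).1
    · rw [h1]
      exact (mem_cong.1 (hle (Subgroup.subset_closure he))).2
  have hH := C_AP hC hsol hE'f hLN hU hT
  have hle1 : Subgroup.closure (E ∪ (fun x => g * x * g⁻¹) '' E) ≤ orb g E := by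
    rw [Subgroup.closure_le]
    rintro x (hx | ⟨y, hy, rfl⟩)
    · exact hmem x hx
    · have h1 := orb_conj g E 1 (hmem y hy)
      rwa [zpow_one] at h1
  have hJA : ∀ x : ↥(Subgroup.closure (E ∪ (fun x => g * x * g⁻¹) '' E)),
      (J.comp (Subgroup.inclusion hle1)) x ∈
        Subgroup.closure (gensA P E') ⊔ Subgroup.zpowers P := by
    have h1 : Subgroup.closure (E ∪ (fun x => g * x * g⁻¹) '' E) ≤
        ((Subgroup.closure (gensA P E')).comap J).map (orb g E).subtype := by
      rw [Subgroup.closure_le]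
      rintro x (hx | ⟨y, hy, rfl⟩)
      · refine ⟨⟨x, hmem x hx⟩, ?_, rfl⟩
        refine Subgroup.subset_closure ⟨0, J ⟨x, hmem x hx⟩, ⟨_, hx, rfl⟩, ?_⟩
        rw [zpow_zero, one_mul, inv_one, mul_one]
      · have h2 : g * y * g⁻¹ ∈ orb g E := hle1 (Subgroup.subset_closure (Or.inr ⟨y, hy, rfl⟩))
        refine ⟨⟨_, h2⟩, ?_, rfl⟩
        refine Subgroup.subset_closure ⟨1, J ⟨y, hmem y hy⟩, ⟨_, hy, rfl⟩, ?_⟩
        rw [zpow_one]
        exact hJP ⟨y, hmem y hy⟩ ⟨_, h2⟩ rfl
    intro x
    obtain ⟨y, hy, hyx⟩ := h1 x.2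
    have h2 : y = Subgroup.inclusion hle1 x := Subtype.ext hyx
    rw [h2] at hy
    exact Subgroup.mem_sup_left hy
  refine ⟨_, inferInstance, (J.comp (Subgroup.inclusion hle1)).codRestrict _ hJA,
    ⟨P, Subgroup.mem_sup_right (Subgroup.mem_zpowers P)⟩, hH, ?_, ?_⟩
  · intro x y hxy
    have h1 : J (Subgroup.inclusion hle1 x) = J (Subgroup.inclusion hle1 y) :=
      congrArg Subtype.val hxy
    have h2 : j (Subgroup.inclusion hle1 x) = j (Subgroup.inclusion hle1 y) :=
      congrArg Units.val h1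
    exact Subgroup.inclusion_injective hle1 (hj h2)
  · intro x y hx hy
    apply Subtype.ext
    exact hJP (Subgroup.inclusion hle1 x) (Subgroup.inclusion hle1 y) hy

/-- **main theorem** -/
theorem unip_main (C : ∀ (G : Type) [Group G], Prop) (hC : ClosedE C)
    (hsol : ∀ (S : Type) [Group S], Group.IsSolvable S → C S)
    (G : Type) [Group G] (N : Subgroup G) [N.Normal] (hQ : C (G ⧸ N))
    (h : ∀ (g : G) (E : Set G), E.Finite → E ⊆ N → UnipotentlyRealized g E) : C G :=
  Pool.Agent.R779.FJ.t_crit Pool.Agent.Y529.FJ.t_ext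
    (Pool.Agent.Y961.FJ.t_perm Pool.Agent.Y529.FJ.t_ext) C hC G N hQ
    fun g E hE hEN => realized hC hsol g E hE (h g E hE hEN)

end Pool.Agent.U89.UF
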